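import Mathlib

set_option autoImplicit false
set_option linter.unusedSectionVars false

/-!
# The matrix of the substitution `y ↦ θ - y` in the monomials
-/

namespace Pool.Agent.Q4.Blk

open Finset

variable {R : Type*} [CommRing R]

/-- one variable: the coefficients of `(θ - Y) ^ a` -/
def bi (θ : R) (a k : ℕ) : R := (a.choose k : R) * (-1) ^ k * θ ^ (a - k)

lemma bi_self (θ : R) (a : ℕ) : bi θ a a = (-1) ^ a := by simp [bi]

lemma bi_succ (θ : R) (a : ℕ) : bi θ (a + 1) a = ((a : R) + 1) * (-1) ^ a * θ := by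
  simp [bi]

lemma bi_lt (θ : R) {a k : ℕ} (h : a < k) : bi θ a k = 0 := by
  simp [bi, Nat.choose_eq_zero_of_lt h]

lemma sub_pow_bi {S : Type*} [CommRing S] (f : R →+* S) (θ : R) (Y : S) (a : ℕ) :
    (f θ - Y) ^ a = ∑ k ∈ Iic a, f (bi θ a k) * Y ^ k := by
  have h1 : (f θ - Y) ^ a = (-Y + f θ) ^ a := by ring
  rw [h1, add_pow, Nat.range_succ_eq_Iic]
  refine Finset.sum_congr rfl fun k _ => ?_
  unfold bi
  rw [map_mul, map_mul, map_pow, map_pow, map_natCast, map_neg, map_one, neg_pow]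
  ring

lemma bi_comp (θ : R) (a b : ℕ) :
    ∑ k ∈ Iic a, bi θ a k * bi θ k b = if a = b then 1 else 0 := by
  have h1 : (Polynomial.X : Polynomial R) ^ a
      = ∑ k ∈ Iic a, Polynomial.C (bi θ a k) * ∑ c ∈ Iic k, Polynomial.C (bi θ k c) * Polynomial.X ^ c := by
    have h2 := sub_pow_bi (Polynomial.C : R →+* Polynomial R) θ
      (Polynomial.C θ - Polynomial.X) a
    rw [sub_sub_cancel] at h2
    rw [h2]
    refine Finset.sum_congr rfl fun k _ => ?_
    rw [sub_pow_bi (Polynomial.C : R →+* Polynomial R) θ Polynomial.X k]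
  have h3 := congrArg (fun p => Polynomial.coeff p b) h1
  simp only [Polynomial.coeff_X_pow, Polynomial.finsetSum_coeff, Polynomial.coeff_C_mul] at h3
  have h4 : ∀ k, ∑ c ∈ Iic k, bi θ k c * (if b = c then (1 : R) else 0) = bi θ k b := by
    intro k
    by_cases hb : b ≤ k
    · rw [Finset.sum_eq_single b]
      · simp
      · intro c _ hc
        simp [hc.symm]
      · intro h
        exact absurd (Finset.mem_Iic.2 hb) h
    · rw [bi_lt θ (not_le.1 hb)]
      refine Finset.sum_eq_zero fun c hc => ?_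
      have : b ≠ c := by
        rintro rfl
        exact hb (Finset.mem_Iic.1 hc)
      simp [this]
  simp only [h4] at h3
  rw [← h3]
  by_cases hab : a = b
  · simp [hab]
  · have : b ≠ a := fun h => hab h.symm
    simp [hab, this]

variable {σ : Type*} [Fintype σ] [DecidableEq σ]

/-- one more -/
def up (J : σ → ℕ) (s : σ) : σ → ℕ := J + Pi.single s 1

lemma up_self (J : σ → ℕ) (s : σ) : up J s s = J s + 1 := by simp [up]

lemma up_ne (J : σ → ℕ) {s t : σ} (h : t ≠ s) : up J s t = J t := by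
  simp [up, Pi.single_eq_of_ne h]

lemma sum_up (J : σ → ℕ) (s : σ) : ∑ t, up J s t = ∑ t, J t + 1 := by
  simp [up, Finset.sum_add_distrib]

lemma le_up (J : σ → ℕ) (s : σ) : J ≤ up J s := by
  intro t
  by_cases h : t = s
  · subst h; rw [up_self]; exact Nat.le_succ _
  · rw [up_ne J h]

lemma Iic_pi (I : σ → ℕ) : Finset.Iic I = Fintype.piFinset (fun s => Finset.Iic (I s)) := by
  ext J
  simp [Pi.le_def]

/-- several variables -/
def bin (θ : σ → R) (I J : σ → ℕ) : R := ∏ s, bi (θ s) (I s) (J s)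

lemma bin_of_not_le (θ : σ → R) {I J : σ → ℕ} (h : ¬ J ≤ I) : bin θ I J = 0 := by
  rw [Pi.le_def] at h
  push Not at h
  obtain ⟨s, hs⟩ := h
  exact Finset.prod_eq_zero (Finset.mem_univ s) (bi_lt _ hs)

lemma bin_self (θ : σ → R) (I : σ → ℕ) : bin θ I I = (-1) ^ (∑ s, I s) := by
  unfold bin
  simp only [bi_self]
  rw [Finset.prod_pow_eq_pow_sum]

lemma bin_succ (θ : σ → R) (J : σ → ℕ) (s : σ) :
    bin θ (up J s) J = (-1) ^ (∑ s, J s) * (((J s : R) + 1) * θ s) := by
  unfold bin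
  rw [← Finset.mul_prod_erase _ _ (Finset.mem_univ s)]
  have h1 : ∀ t ∈ Finset.univ.erase s, bi (θ t) (up J s t) (J t) = (-1) ^ (J t) := by
    intro t ht
    rw [up_ne J (Finset.ne_of_mem_erase ht), bi_self]
  rw [Finset.prod_congr rfl h1, Finset.prod_pow_eq_pow_sum]
  rw [up_self, bi_succ, ← Finset.add_sum_erase _ _ (Finset.mem_univ s), pow_add]
  ring

lemma prod_sub_pow {S : Type*} [CommRing S] (f : R →+* S) (θ : σ → R) (Y : σ → S) (I : σ → ℕ) :
    ∏ s, (f (θ s) - Y s) ^ (I s) = ∑ J ∈ Iic I, f (bin θ I J) * ∏ s, Y s ^ (J s) := by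
  have h1 : ∀ s, (f (θ s) - Y s) ^ (I s) = ∑ k ∈ Iic (I s), f (bi (θ s) (I s) k) * Y s ^ k :=
    fun s => sub_pow_bi f (θ s) (Y s) (I s)
  simp only [h1]
  rw [Finset.prod_univ_sum, Iic_pi]
  refine Finset.sum_congr rfl fun J _ => ?_
  rw [Finset.prod_mul_distrib]
  unfold bin
  rw [map_prod]

lemma bin_comp (θ : σ → R) (I K : σ → ℕ) :
    ∑ J ∈ Iic I, bin θ I J * bin θ J K = if I = K then 1 else 0 := by
  unfold bin
  simp only [← Finset.prod_mul_distrib]
  rw [Iic_pi, ← Finset.prod_univ_sum (fun s => Iic (I s))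
    (fun s k => bi (θ s) (I s) k * bi (θ s) k (K s))]
  simp only [bi_comp]
  by_cases h : I = K
  · simp [h]
  · rw [if_neg h]
    obtain ⟨s, hs⟩ := Function.ne_iff.1 h
    exact Finset.prod_eq_zero (Finset.mem_univ s) (if_neg hs)

/-- the entries next to the diagonal -/
lemma bin_near (θ : σ → R) {I J : σ → ℕ} (h : bin θ I J ≠ 0) (hs : ∑ s, I s ≤ ∑ s, J s + 1) :
    I = J ∨ ∃ s, I = up J s := by
  have hle : J ≤ I := by
    by_contra hc
    exact h (bin_of_not_le θ hc)
  by_cases he : I = J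
  · exact Or.inl he
  · right
    obtain ⟨s, hs'⟩ := Function.ne_iff.1 he
    have h1 : J s < I s := lt_of_le_of_ne (hle s) (Ne.symm hs')
    refine ⟨s, ?_⟩
    have h2 : ∀ t, up J s t ≤ I t := by
      intro t
      by_cases ht : t = s
      · subst ht; rw [up_self]; exact h1
      · rw [up_ne J ht]; exact hle t
    have h3 := sum_up J s
    funext t
    by_contra hne
    have h4 : up J s t < I t := lt_of_le_of_ne (h2 t) (Ne.symm hne)
    have h5 : ∑ t, up J s t < ∑ t, I t :=
      Finset.sum_lt_sum (fun t _ => h2 t) ⟨t, Finset.mem_univ t, h4⟩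
    omega

end Pool.Agent.Q4.Blk
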