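import Mathlib
import Pool.Agent.TH796.AL.All
import Pool.Agent.Q4.Blk.Bin

set_option autoImplicit false
set_option linter.unusedSectionVars false

/-!
# The subspace theorem for germs in the presence of one relation
-/

namespace Pool.Agent.Q4.Blk

open Filter Topology Pool.Agent.TH932.Abs Pool.Agent.TH932.Germs Pool.Agent.TH932.Chi
open Pool.Agent.TH796.AL

variable {m : ℕ} {B : Base m} {L : ℕ → ℝ} (hL : Tendsto L atTop atTop)

/-- independence over the negligible rational germs gives independence over `KA` -/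
lemma ind_KA (F : IntermediateField ℚ ℝ) [FiniteDimensional ℚ F] {ι : Type*} [Fintype ι]
    (x : ι → GG) (hx : ∀ c : ι → KK L hL, ∑ i, (c i : GG) * x i = 0 → ∀ i, c i = 0)
    (a : ι → KA F hL) (ha : ∑ i, (a i : HR) * rho (x i) = 0) : ∀ i, a i = 0 := by
  set β := Module.finBasis ℚ F with hβ
  have hβi : LinearIndependent ℚ (fun k => ((β k : F) : ℝ)) :=
    β.linearIndependent.map' (F.val.toLinearMap) (LinearMap.ker_eq_bot.2 F.val.injective)
  have h8 : ∀ i, ∃ c : Fin (Module.finrank ℚ F) → KK L hL,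
      (a i : HR) = ∑ k, algebraMap ℝ HR ((β k : F) : ℝ) * rho (c k : GG) := fun i =>
    (dec_thm L hL F inferInstance _ inferInstance β (a i : HR)).1 (a i).2
  choose c hc using h8
  have h1 : ∑ k, algebraMap ℝ HR ((β k : F) : ℝ) * rho (∑ i, (c i k : GG) * x i) = 0 := by
    rw [← ha]
    simp only [hc, Finset.sum_mul, map_sum, map_mul, Finset.mul_sum]
    rw [Finset.sum_comm]
    refine Finset.sum_congr rfl fun i _ => Finset.sum_congr rfl fun k _ => ?_
    ring
  have h2 := disj_thm _ inferInstance _ hβi _ h1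
  intro i
  apply Subtype.ext
  rw [hc i]
  change _ = (0 : HR)
  refine Finset.sum_eq_zero fun k _ => ?_
  rw [hx (fun i => c i k) (h2 k) i]
  simp

lemma sum_ne {A ι : Type*} [AddCommMonoid A] [Fintype ι] [DecidableEq ι] (i0 : ι) (f : ι → A) :
    ∑ i, f i = ∑ i : {i // i ≠ i0}, f i.1 + f i0 := by
  rw [← Finset.sum_erase_add _ _ (Finset.mem_univ i0)]
  congr 1
  exact Finset.sum_subtype (Finset.univ.erase i0) (p := fun i => i ≠ i0) (by simp) f

/-- **One relation**: if the relations between the `x i` are the multiples of the relation `c`,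
then the weight of a coordinate of `c` plus the weight of a coordinate of `c` with respect to the
`z j` is nonnegative. -/
lemma one_rel (F : IntermediateField ℚ ℝ) [FiniteDimensional ℚ F] {ι : Type} [Fintype ι]
    [DecidableEq ι] (x : ι → GG) (z : ι → HR)
    (M : ι → ι → KA F hL) (hM : ∀ i k, ∑ j, M i j * M j k = if i = k then 1 else 0)
    (hz : ∀ i, z i = ∑ j, (M i j : HR) * rho (x j))
    (w : Fin m → ι → ℝ) (wI : ι → ℝ)
    (h4 : ∀ v i, x i ∈ Sv B L (some v) (w v i)) (h5 : ∀ i, z i ∈ SR L (wI i))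
    (h6 : ∀ i, Sint B L (x i)) (C : ℝ) (h7 : ∀ i, rho (x i) ∈ SR L (-C))
    (c : ι → KK L hL) (hc : ∑ i, (c i : GG) * x i = 0)
    (i0 : ι) (hi0 : c i0 ≠ 0)
    (hun : ∀ c' : ι → KK L hL, ∑ i, (c' i : GG) * x i = 0 → c' i0 = 0 → ∀ i, c' i = 0)
    (j0 : ι) (hj0 : ∑ i, Lin.inc hL F (c i) * M i j0 ≠ 0) :
    ∑ v, ∑ i, w v i + ∑ i, wI i ≤ ∑ v, w v i0 + wI j0 := by
  classical
  -- independence without `i0`
  have hx' : ∀ c' : {i // i ≠ i0} → KK L hL, ∑ i, (c' i : GG) * x i = 0 → ∀ i, c' i = 0 := by
    intro c' hc' i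
    have h1 := hun (fun i => if h : i ≠ i0 then c' ⟨i, h⟩ else 0) (by
      rw [← hc', sum_ne i0]
      simp only [ne_eq, not_true_eq_false, dite_false, ZeroMemClass.coe_zero, zero_mul, add_zero]
      refine Finset.sum_congr rfl fun i _ => ?_
      rw [dif_pos i.2]) (by simp) i.1
    rw [dif_pos i.2] at h1
    exact h1
  have hxA := ind_KA hL F (fun i : {i // i ≠ i0} => x i.1) hx'
  -- elimination
  have hx0 : rho (x i0) = - ∑ i : {i // i ≠ i0},
      ((Lin.inc hL F (c i * (c i0)⁻¹) : KA F hL) : HR) * rho (x i.1) := by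
    have h1 : (c i0 : GG) * x i0 = - ∑ i : {i // i ≠ i0}, (c i.1 : GG) * x i.1 := by
      rw [sum_ne i0] at hc
      exact eq_neg_of_add_eq_zero_right hc
    have h0 : (c i0 : GG) ≠ 0 := fun h => hi0 (Subtype.ext h)
    have h2 : x i0 = - ∑ i : {i // i ≠ i0}, ((c i * (c i0)⁻¹ : KK L hL) : GG) * x i.1 := by
      have h3 : x i0 = (c i0 : GG)⁻¹ * ((c i0 : GG) * x i0) := by
        rw [inv_mul_cancel_left₀ h0]
      rw [h3, h1, mul_neg, Finset.mul_sum]
      congr 1
      refine Finset.sum_congr rfl fun i _ => ?_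
      push_cast
      ring
    rw [h2, map_neg, map_sum]
    congr 1
    refine Finset.sum_congr rfl fun i _ => ?_
    rw [map_mul, Lin.inc_coe]
  set π := Equiv.swap i0 j0 with hπ
  have hπ0 : ∀ i, π i = j0 ↔ i = i0 := by
    intro i
    rw [hπ]
    constructor
    · intro h
      have := congrArg (Equiv.swap i0 j0) h
      simpa using this
    · rintro rfl; simp
  have key := mova_thm m B L hL F inferInstance {i // i ≠ i0} inferInstance (fun i => x i.1)
    (fun i => z (π i.1)) (fun v i => w v i.1) (fun i => wI (π i.1)) hx' ?_ ?_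
    (fun v i => h4 v i.1) (fun i => h5 _) (fun i => h6 _) C (fun i => h7 _)
  · -- the sums
    have e1 : ∀ f : ι → ℝ, ∑ i : {i // i ≠ i0}, f i.1 = ∑ i, f i - f i0 := by
      intro f
      rw [sum_ne i0 f]
      ring
    have e2 : ∑ i : {i // i ≠ i0}, wI (π i.1) = ∑ i, wI i - wI j0 := by
      rw [e1 (fun i => wI (π i)), (hπ0 i0).2 rfl]
      congr 1
      exact Equiv.sum_comp π wI
    rw [e2] at key
    have e3 : ∑ v, ∑ i : {i // i ≠ i0}, w v i.1 = ∑ v, ∑ i, w v i - ∑ v, w v i0 := by
      rw [← Finset.sum_sub_distrib]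
      exact Finset.sum_congr rfl fun v _ => e1 (w v)
    rw [e3] at key
    linarith
  · -- independence of the forms
    intro a' ha' i
    set a : ι → KA F hL := fun j => if h : π.symm j ≠ i0 then a' ⟨π.symm j, h⟩ else 0 with ha
    have haj0 : a j0 = 0 := by
      have : π.symm j0 = i0 := by
        rw [Equiv.symm_apply_eq]; exact ((hπ0 i0).2 rfl).symm
      simp [ha, this]
    have hsum : ∑ j, (a j : HR) * z j = 0 := by
      rw [← Equiv.sum_comp π, sum_ne i0, (hπ0 i0).2 rfl, haj0]
      rw [← ha']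
      simp only [ZeroMemClass.coe_zero, zero_mul, add_zero]
      refine Finset.sum_congr rfl fun i _ => ?_
      have : a (π i.1) = a' i := by
        simp only [ha, Equiv.symm_apply_apply]
        rw [dif_pos i.2]
      rw [this]
    set b : ι → KA F hL := fun i => ∑ j, a j * M j i with hb
    have hb1 : ∑ i, (b i : HR) * rho (x i) = 0 := by
      rw [← hsum]
      simp only [hz, Finset.mul_sum]
      rw [Finset.sum_comm]
      refine Finset.sum_congr rfl fun i _ => ?_
      rw [hb]
      simp only []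
      rw [AddSubmonoidClass.coe_finsetSum, Finset.sum_mul]
      refine Finset.sum_congr rfl fun j _ => ?_
      rw [MulMemClass.coe_mul, mul_assoc]
    set lam : KA F hL := b i0 * Lin.inc hL F (c i0)⁻¹ with hlam
    have hb2 : ∀ i, b i = lam * Lin.inc hL F (c i) := by
      have h1 : ∀ i : {i // i ≠ i0}, b i.1 - b i0 * Lin.inc hL F (c i * (c i0)⁻¹) = 0 := by
        refine hxA (fun i => b i.1 - b i0 * Lin.inc hL F (c i * (c i0)⁻¹)) ?_
        rw [sum_ne i0, hx0, mul_neg, Finset.mul_sum, ← sub_eq_add_neg,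
          ← Finset.sum_sub_distrib] at hb1
        rw [← hb1]
        refine Finset.sum_congr rfl fun i _ => ?_
        rw [AddSubgroupClass.coe_sub, MulMemClass.coe_mul]
        ring
      intro i
      by_cases hi : i = i0
      · subst hi
        rw [hlam, mul_assoc, ← map_mul, inv_mul_cancel₀ hi0, map_one, mul_one]
      · have := sub_eq_zero.1 (h1 ⟨i, hi⟩)
        rw [this, hlam, map_mul]
        ring
    have hb3 : ∀ k, a k = ∑ i, b i * M i k := by
      intro k
      rw [hb]
      simp only [Finset.sum_mul]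
      rw [Finset.sum_comm]
      have h1 : ∀ j, ∑ i, a j * M j i * M i k = a j * (if j = k then 1 else 0) := by
        intro j
        rw [← hM j k, Finset.mul_sum]
        exact Finset.sum_congr rfl fun i _ => mul_assoc _ _ _
      simp only [h1]
      simp
    have hlam0 : lam = 0 := by
      have h1 := hb3 j0
      rw [haj0] at h1
      have h2 : ∑ i, b i * M i j0 = lam * ∑ i, Lin.inc hL F (c i) * M i j0 := by
        rw [Finset.mul_sum]
        refine Finset.sum_congr rfl fun i _ => ?_
        rw [hb2 i, mul_assoc]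
      rw [h2] at h1
      rcases mul_eq_zero.1 h1.symm with h3 | h3
      · exact h3
      · exact absurd h3 hj0
    have ha0 : a (π i.1) = 0 := by
      rw [hb3]
      refine Finset.sum_eq_zero fun k _ => ?_
      rw [hb2 k, hlam0, zero_mul, zero_mul]
    have : a (π i.1) = a' i := by
      simp only [ha, Equiv.symm_apply_apply]
      rw [dif_pos i.2]
    rw [← this, ha0]
  · -- the span
    intro i
    refine ⟨fun j => M (π i.1) j.1 - M (π i.1) i0 * Lin.inc hL F (c j * (c i0)⁻¹), ?_⟩
    rw [hz, sum_ne i0, hx0, mul_neg, Finset.mul_sum, ← sub_eq_add_neg, ← Finset.sum_sub_distrib]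
    refine Finset.sum_congr rfl fun j _ => ?_
    rw [AddSubgroupClass.coe_sub, MulMemClass.coe_mul]
    ring

end Pool.Agent.Q4.Blk
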