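import Mathlib
import Pool.Agent.Q4.Blk.One

set_option autoImplicit false
set_option linter.unusedSectionVars false

/-!
# Monomials in rational germs close to algebraic numbers
-/

namespace Pool.Agent.Q4.Blk

open Filter Topology Pool.Agent.TH932.Abs Pool.Agent.TH932.Germs Pool.Agent.TH932.Chi
open Pool.Agent.TH796.AL

variable {m : ℕ} {B : Base m} {L : ℕ → ℝ} (hL : Tendsto L atTop atTop)
variable (F : IntermediateField ℚ ℝ) [FiniteDimensional ℚ F] {σ : Type} [Fintype σ] [DecidableEq σ]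
variable (θ : σ → F) (g : σ → Fin m → ℝ) (y : σ → GG)

/-- the germs `y s` are close to `θ s` and have denominators `X ^ g s` -/
structure Fam (B : Base m) (L : ℕ → ℝ) (F : IntermediateField ℚ ℝ) (θ : σ → F)
    (g : σ → Fin m → ℝ) (y : σ → GG) : Prop where
  fin : ∀ v s, y s ∈ Sv B L (some v) (-lv B (some v) (g s))
  inf : ∀ s, algebraMap ℝ HR (θ s : ℝ) - rho (y s) ∈ SR L (-lv B none (g s))
  int : ∀ s, Sint B L (y s)
  pos : ∀ s, 0 < -lv B none (g s)
  ind : ∀ s, LinearIndependent ℚ (fun o : Option {t : σ // lv B none (g t) = lv B none (g s)} =>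
    (o.elim 1 (fun t => (θ t : ℝ)) : ℝ))

/-- the exponents: a monomial and a character -/
abbrev Om (σ : Type) (m : ℕ) := (σ → ℕ) × (Fin m → ℝ)

/-- the elements -/
noncomputable def xx (B : Base m) (ω : Om σ m) : GG := ch B hL ω.2 * ∏ s, y s ^ ω.1 s

/-- the forms -/
noncomputable def zz (B : Base m) (ω : Om σ m) : HR :=
  rho (ch B hL ω.2) * ∏ s, (algebraMap ℝ HR (θ s : ℝ) - rho (y s)) ^ ω.1 s

/-- the exponent of the value -/
noncomputable def sh (ω : Om σ m) : Fin m → ℝ := ω.2 - ∑ s, (ω.1 s : ℝ) • g s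

lemma lv_smul (v : Option (Fin m)) (r : ℝ) (h : Fin m → ℝ) : lv B v (r • h) = r * lv B v h := by
  cases v with
  | none =>
    simp only [lv, Pi.smul_apply, smul_eq_mul, mul_neg, Finset.mul_sum]
    congr 1
    exact Finset.sum_congr rfl fun i _ => by ring
  | some i => simp only [lv, Pi.smul_apply, smul_eq_mul]; ring

lemma lv_fsum {ι : Type*} (v : Option (Fin m)) (s : Finset ι) (f : ι → Fin m → ℝ) :
    lv B v (∑ i ∈ s, f i) = ∑ i ∈ s, lv B v (f i) := by
  classical
  induction s using Finset.induction_on with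
  | empty => simp [lv_zero]
  | insert i s hi ih => rw [Finset.sum_insert hi, Finset.sum_insert hi, lv_add, ih]

lemma lv_sh (v : Option (Fin m)) (ω : Om σ m) :
    lv B v (sh g ω) = lv B v ω.2 + ∑ s, (ω.1 s : ℝ) * (-lv B v (g s)) := by
  unfold sh
  rw [lv_sub, lv_fsum]
  simp only [lv_smul, mul_neg, Finset.sum_neg_distrib]
  ring

lemma SR_pow {t : ℝ} {a : HR} (ha : a ∈ SR L t) (n : ℕ) (hL : Tendsto L atTop atTop) :
    a ^ n ∈ SR L (n * t) := by
  induction n with
  | zero =>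
    have := SR_cst hL 1
    simpa using this
  | succ n ih =>
    rw [pow_succ]
    have := SR_mul hL ih ha
    convert this using 1
    push_cast; ring_nf

lemma SR_prod {ι : Type*} (s : Finset ι) (f : ι → HR) (t : ι → ℝ) (h : ∀ i ∈ s, f i ∈ SR L (t i))
    (hL : Tendsto L atTop atTop) : ∏ i ∈ s, f i ∈ SR L (∑ i ∈ s, t i) := by
  classical
  induction s using Finset.induction_on with
  | empty =>
    have := SR_cst hL 1
    simpa using this
  | insert i s hi ih =>
    rw [Finset.prod_insert hi, Finset.sum_insert hi]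
    exact SR_mul hL (h i (Finset.mem_insert_self _ _))
      (ih fun j hj => h j (Finset.mem_insert_of_mem hj))

lemma Sv_prod {ι : Type*} (v : Option (Fin m)) (s : Finset ι) (f : ι → GG) (t : ι → ℝ)
    (h : ∀ i ∈ s, f i ∈ Sv B L v (t i)) (hL : Tendsto L atTop atTop) :
    ∏ i ∈ s, f i ∈ Sv B L v (∑ i ∈ s, t i) := by
  classical
  induction s using Finset.induction_on with
  | empty =>
    have := (filt_v (B := B) hL v).alg_mem 1
    simpa using this
  | insert i s hi ih =>
    rw [Finset.prod_insert hi, Finset.sum_insert hi]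
    exact (filt_v hL v).mul_mem (h i (Finset.mem_insert_self _ _))
      (ih fun j hj => h j (Finset.mem_insert_of_mem hj))

lemma Sint_prod {ι : Type*} (s : Finset ι) (f : ι → GG) (h : ∀ i ∈ s, Sint B L (f i))
    (hL : Tendsto L atTop atTop) : Sint B L (∏ i ∈ s, f i) := by
  classical
  induction s using Finset.induction_on with
  | empty =>
    have := Sint.alg (B := B) hL 1
    simpa using this
  | insert i s hi ih =>
    rw [Finset.prod_insert hi]
    exact Sint.mul hL (h i (Finset.mem_insert_self _ _))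
      (ih fun j hj => h j (Finset.mem_insert_of_mem hj))

lemma Sint_pow {a : GG} (h : Sint B L a) (n : ℕ) (hL : Tendsto L atTop atTop) :
    Sint B L (a ^ n) := by
  have := Sint_prod (B := B) (Finset.range n) (fun _ => a) (fun _ _ => h) hL
  simpa using this

section
variable {F θ g y} (H : Fam B L F θ g y)
include H

lemma Fam.x_fin (v : Fin m) (ω : Om σ m) :
    xx hL y B ω ∈ Sv B L (some v) (lv B (some v) (sh g ω)) := by
  rw [lv_sh]
  unfold xx
  refine (filt_v hL _).mul_mem (ch_mem hL _ _) (Sv_prod _ _ _ _ (fun s _ => ?_) hL)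
  have := (filt_v hL (some v)).pow_mem (H.fin v s) (ω.1 s)
  rwa [mul_comm] at this

lemma Fam.x_int (ω : Om σ m) : Sint B L (xx hL y B ω) := by
  unfold xx
  exact Sint.mul hL (ch_sint hL _) (Sint_prod _ _ (fun s _ => Sint_pow (H.int s) _ hL) hL)

lemma Fam.z_inf (ω : Om σ m) : zz hL F θ y B ω ∈ SR L (lv B none (sh g ω)) := by
  rw [lv_sh]
  unfold zz
  refine SR_mul hL (SR_rho (ch_mem hL none _)) (SR_prod _ _ _ (fun s _ => ?_) hL)
  exact SR_pow (H.inf s) _ hL

include hL in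
lemma Fam.y_bd (s : σ) : rho (y s) ∈ SR L 0 := by
  have h1 := SR_anti hL (H.pos s).le (H.inf s)
  have h2 := SR_cst hL (-1)
  have h3 := SR_mul hL h2 h1
  rw [add_zero] at h3
  have h4 := SR_add hL (SR_cst hL (θ s : ℝ)) h3
  convert h4 using 1
  rw [map_neg, map_one]
  ring

lemma Fam.x_bd (ω : Om σ m) : rho (xx hL y B ω) ∈ SR L (lv B none ω.2) := by
  unfold xx
  rw [map_mul, map_prod]
  have := SR_mul hL (SR_rho (ch_mem (B := B) hL none ω.2))
    (SR_prod Finset.univ (fun s => rho (y s ^ ω.1 s)) (fun _ => 0) (fun s _ => by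
      rw [map_pow]
      have := SR_pow (H.y_bd hL s) (ω.1 s) hL
      rwa [mul_zero] at this) hL)
  simpa using this

end

/-- down-closed sets of exponents -/
def Dn (Ω : Finset (Om σ m)) : Prop := ∀ ω ∈ Ω, ∀ J ≤ ω.1, (J, ω.2) ∈ Ω

open Classical in
/-- the matrix of the forms -/
noncomputable def Mt (ω ω' : Om σ m) : KA F hL :=
  if ω.2 = ω'.2 then algebraMap F (KA F hL) (bin θ ω.1 ω'.1) else 0

variable {F θ} in
lemma sum_Mt {A : Type*} [CommRing A] (φ : KA F hL →+* A) {Ω : Finset (Om σ m)} (hΩ : Dn Ω)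
    {ω : Om σ m} (hω : ω ∈ Ω) (f : Om σ m → A) :
    ∑ ω' ∈ Ω, φ (Mt hL F θ ω ω') * f ω'
      = ∑ J ∈ Finset.Iic ω.1, φ (algebraMap F (KA F hL) (bin θ ω.1 J)) * f (J, ω.2) := by
  classical
  have h1 : ∑ J ∈ Finset.Iic ω.1, φ (algebraMap F (KA F hL) (bin θ ω.1 J)) * f (J, ω.2)
      = ∑ ω' ∈ (Finset.Iic ω.1).image (fun J => (J, ω.2)), φ (Mt hL F θ ω ω') * f ω' := by
    rw [Finset.sum_image (by
      intro a _ b _ h
      exact (Prod.mk.inj h).1)]
    refine Finset.sum_congr rfl fun J _ => ?_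
    unfold Mt
    rw [if_pos rfl]
  rw [h1]
  symm
  apply Finset.sum_subset
  · intro ω' h
    obtain ⟨J, hJ, rfl⟩ := Finset.mem_image.1 h
    exact hΩ ω hω J (Finset.mem_Iic.1 hJ)
  · intro ω' _ h
    unfold Mt
    split_ifs with h2
    · have h3 : ¬ ω'.1 ≤ ω.1 := by
        intro h3
        apply h
        rw [Finset.mem_image]
        exact ⟨ω'.1, Finset.mem_Iic.2 h3, Prod.ext rfl h2⟩
      rw [bin_of_not_le _ h3, map_zero, map_zero, zero_mul]
    · rw [map_zero, zero_mul]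

lemma Mt_sq {Ω : Finset (Om σ m)} (hΩ : Dn Ω) {ω : Om σ m} (hω : ω ∈ Ω) (ω' : Om σ m) :
    ∑ ω'' ∈ Ω, Mt hL F θ ω ω'' * Mt hL F θ ω'' ω' = if ω = ω' then 1 else 0 := by
  classical
  have h1 := sum_Mt hL (RingHom.id (KA F hL)) (θ := θ) hΩ hω (fun ω'' => Mt hL F θ ω'' ω')
  simp only [RingHom.id_apply] at h1
  rw [h1]
  unfold Mt
  by_cases h2 : ω.2 = ω'.2
  · simp only [h2, if_true]
    have h3 := bin_comp θ ω.1 ω'.1
    have h4 := congrArg (algebraMap F (KA F hL)) h3
    rw [map_sum] at h4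
    simp only [map_mul] at h4
    rw [h4]
    by_cases h5 : ω.1 = ω'.1
    · have : ω = ω' := Prod.ext h5 h2
      simp [this]
    · have : ω ≠ ω' := fun h => h5 (by rw [h])
      simp [h5, this]
  · have : ω ≠ ω' := fun h => h2 (by rw [h])
    simp [h2, this]

lemma zz_eq {Ω : Finset (Om σ m)} (hΩ : Dn Ω) {ω : Om σ m} (hω : ω ∈ Ω) :
    zz hL F θ y B ω = ∑ ω' ∈ Ω, (Mt hL F θ ω ω' : HR) * rho (xx hL y B ω') := by
  have h1 := sum_Mt hL ((KA F hL).val : KA F hL →+* HR) (θ := θ) hΩ hω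
    (fun ω' => rho (xx hL y B ω'))
  have h2 : ∀ a : KA F hL, ((KA F hL).val : KA F hL →+* HR) a = (a : HR) := fun _ => rfl
  simp only [h2] at h1
  rw [h1]
  unfold zz
  let f : F →+* HR := (algebraMap ℝ HR).comp (algebraMap F ℝ)
  have h3 := prod_sub_pow f θ (fun s => rho (y s)) ω.1
  have h4 : ∀ a : F, f a = algebraMap ℝ HR (a : ℝ) := fun _ => rfl
  simp only [h4] at h3
  rw [h3, Finset.mul_sum]
  refine Finset.sum_congr rfl fun J _ => ?_
  unfold xx
  rw [map_mul, map_prod]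
  simp only [map_pow]
  have h5 : ((algebraMap F (KA F hL) (bin θ ω.1 J) : KA F hL) : HR)
    = algebraMap ℝ HR ((bin θ ω.1 J : F) : ℝ) := rfl
  rw [h5]
  ring

end Pool.Agent.Q4.Blk
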