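import Mathlib
import Pool.Agent.Q4.Blk.Fam

set_option autoImplicit false
set_option linter.unusedSectionVars false

/-!
# Independence of the monomials
-/

namespace Pool.Agent.Q4.Blk

open Filter Topology Pool.Agent.TH932.Abs Pool.Agent.TH932.Germs Pool.Agent.TH932.Chi
open Pool.Agent.TH796.AL

variable {m : ℕ} {B : Base m} {L : ℕ → ℝ} (hL : Tendsto L atTop atTop)
variable {F : IntermediateField ℚ ℝ} [FiniteDimensional ℚ F] {σ : Type} [Fintype σ] [DecidableEq σ]
variable {θ : σ → F} {g : σ → Fin m → ℝ} {y : σ → GG} (H : Fam B L F θ g y)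

/-- a common bound at the real place -/
lemma exists_C (Ω : Finset (Om σ m)) : ∃ C : ℝ, ∀ ω ∈ Ω, -C ≤ lv B none ω.2 := by
  refine ⟨∑ ω ∈ Ω, |lv B none ω.2|, fun ω hω => ?_⟩
  have h2 : |lv B none ω.2| ≤ ∑ ω ∈ Ω, |lv B none ω.2| :=
    Finset.single_le_sum (f := fun ω => |lv B none ω.2|) (fun _ _ => abs_nonneg _) hω
  have h3 := neg_abs_le (lv B none ω.2)
  linarith

lemma sum_fin_lv (h : Fin m → ℝ) : ∑ v, lv B (some v) h = -lv B none h := by
  have := lv_sum (B := B) h
  rw [Fintype.sum_option] at this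
  linarith

include H in
/-- one relation between the monomials -/
lemma rel (Ω : Finset (Om σ m)) (hΩ : Dn Ω) (c : Om σ m → KK L hL)
    (hc : ∑ ω ∈ Ω, (c ω : GG) * xx hL y B ω = 0) (i0 : Om σ m) (hi : i0 ∈ Ω) (hi0 : c i0 ≠ 0)
    (hun : ∀ c' : Om σ m → KK L hL, (∀ ω ∉ Ω, c' ω = 0) →
      ∑ ω ∈ Ω, (c' ω : GG) * xx hL y B ω = 0 → c' i0 = 0 → ∀ ω, c' ω = 0)
    (j0 : Om σ m) (hj : j0 ∈ Ω) (hj0 : ∑ ω ∈ Ω, Lin.inc hL F (c ω) * Mt hL F θ ω j0 ≠ 0) :
    -lv B none (sh g j0) ≤ -lv B none (sh g i0) := by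
  classical
  obtain ⟨C, hC⟩ := exists_C (B := B) Ω
  have hs : ∀ {A : Type} [AddCommMonoid A] (f : Om σ m → A), ∑ ω : {ω // ω ∈ Ω}, f ω.1 = ∑ ω ∈ Ω, f ω :=
    fun f => Finset.sum_coe_sort Ω f
  have key := one_rel (B := B) hL F (ι := {ω // ω ∈ Ω}) (fun ω => xx hL y B ω.1)
    (fun ω => zz hL F θ y B ω.1) (fun ω ω' => Mt hL F θ ω.1 ω'.1) ?_ ?_
    (fun v ω => lv B (some v) (sh g ω.1)) (fun ω => lv B none (sh g ω.1))
    (fun v ω => H.x_fin hL v _) (fun ω => H.z_inf hL _) (fun ω => H.x_int hL _) C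
    (fun ω => SR_anti hL (hC _ ω.2) (H.x_bd hL _)) (fun ω => c ω.1) ?_ ⟨i0, hi⟩ hi0 ?_ ⟨j0, hj⟩ ?_
  · have e1 : ∑ v, ∑ ω : {ω // ω ∈ Ω}, lv B (some v) (sh g ω.1)
        + ∑ ω : {ω // ω ∈ Ω}, lv B none (sh g ω.1) = 0 := by
      rw [Finset.sum_comm, ← Finset.sum_add_distrib]
      refine Finset.sum_eq_zero fun ω _ => ?_
      rw [sum_fin_lv]
      ring
    rw [e1, sum_fin_lv] at key
    linarith
  · intro ω ω'
    rw [Finset.sum_coe_sort Ω (fun j => Mt hL F θ ω.1 j * Mt hL F θ j ω'.1),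
      Mt_sq hL F θ hΩ ω.2]
    simp only [Subtype.ext_iff]
  · intro ω
    rw [zz_eq hL F θ y hΩ ω.2]
    exact (Finset.sum_coe_sort Ω (fun j => (Mt hL F θ ω.1 j : HR) * rho (xx hL y B j))).symm
  · rw [← hc]
    exact Finset.sum_coe_sort Ω (fun ω => (c ω : GG) * xx hL y B ω)
  · intro c' hc' h0 ω
    have h1 := hun (fun ω => if h : ω ∈ Ω then c' ⟨ω, h⟩ else 0) (fun ω hω => dif_neg hω) (by
      rw [← hc', ← Finset.sum_coe_sort Ω]
      refine Finset.sum_congr rfl fun ω _ => ?_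
      rw [dif_pos ω.2]) (by rw [dif_pos hi]; exact h0) ω.1
    rw [dif_pos ω.2] at h1
    exact h1
  · intro h0
    apply hj0
    rw [← h0]
    exact (Finset.sum_coe_sort Ω (fun ω => Lin.inc hL F (c ω) * Mt hL F θ ω j0)).symm

include H in
lemma mu_up (J : σ → ℕ) (s : σ) (w : Fin m → ℝ) :
    -lv B none (sh g ((up J s, w) : Om σ m)) = -lv B none (sh g ((J, w) : Om σ m)) - (-lv B none (g s)) := by
  have _ := H.pos s
  rw [lv_sh, lv_sh]
  simp only []
  have h1 : ∑ t, ((up J s t : ℕ) : ℝ) * (-lv B none (g t))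
      = ∑ t, (J t : ℝ) * (-lv B none (g t)) + (-lv B none (g s)) := by
    have h2 : ∀ t, ((up J s t : ℕ) : ℝ) * (-lv B none (g t))
        = (J t : ℝ) * (-lv B none (g t)) + (if t = s then (-lv B none (g s)) else 0) := by
      intro t
      by_cases ht : t = s
      · subst ht; rw [up_self, if_pos rfl]; push_cast; ring
      · rw [up_ne J ht, if_neg ht]; ring
    simp only [h2]
    rw [Finset.sum_add_distrib]
    simp
  rw [h1]
  ring

include H in
/-- a relation with the inequalities of `rel` is a relation between characters -/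
lemma combi (Ω : Finset (Om σ m)) (c : Om σ m → KK L hL) (hcΩ : ∀ ω ∉ Ω, c ω = 0)
    (hΩ : Dn Ω)
    (h : ∀ i0 ∈ Ω, c i0 ≠ 0 → ∀ j0 ∈ Ω, ∑ ω ∈ Ω, Lin.inc hL F (c ω) * Mt hL F θ ω j0 ≠ 0 →
      -lv B none (sh g j0) ≤ -lv B none (sh g i0)) :
    ∀ ω, c ω ≠ 0 → ω.1 = 0 := by
  classical
  intro ω1 hω1
  have hω1Ω : ω1 ∈ Ω := by
    by_contra hn
    exact hω1 (hcΩ _ hn)
  -- the maximal degree
  obtain ⟨ω0, hω0, hmax⟩ := Finset.exists_max_image (Ω.filter (fun ω => c ω ≠ 0))
    (fun ω => ∑ s, ω.1 s) ⟨ω1, Finset.mem_filter.2 ⟨hω1Ω, hω1⟩⟩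
  obtain ⟨hω0Ω, hc0⟩ := Finset.mem_filter.1 hω0
  have hmax' : ∀ ω, c ω ≠ 0 → ∑ s, ω.1 s ≤ ∑ s, ω0.1 s := by
    intro ω hω
    refine hmax ω (Finset.mem_filter.2 ⟨?_, hω⟩)
    by_contra hn
    exact hω (hcΩ _ hn)
  by_cases hd : ∑ s, ω0.1 s = 0
  · have h1 := hmax' ω1 hω1
    rw [hd] at h1
    have h2 : ∑ s, ω1.1 s = 0 := Nat.le_zero.1 h1
    funext s
    exact (Finset.sum_eq_zero_iff.1 h2) s (Finset.mem_univ s)
  exfalso
  obtain ⟨s, _, hs⟩ : ∃ s ∈ Finset.univ, ω0.1 s ≠ 0 := by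
    by_contra hn
    push Not at hn
    exact hd (Finset.sum_eq_zero hn)
  obtain ⟨I, w⟩ := ω0
  simp only [] at hs hd hmax' hc0 hω0Ω
  set J : σ → ℕ := I - Pi.single s 1 with hJ
  have hI : I = up J s := by
    funext t
    by_cases ht : t = s
    · subst ht
      rw [up_self, hJ]
      simp only [Pi.sub_apply, Pi.single_eq_same]
      omega
    · rw [up_ne J ht, hJ]
      simp [Pi.single_eq_of_ne ht]
  have hIJ : ∑ t, I t = ∑ t, J t + 1 := by
    conv_lhs => rw [hI]
    exact sum_up J s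
  -- the relation vector at top degree
  have htop : ∀ K : σ → ℕ, ∑ t, K t = ∑ t, I t → 
      ∑ ω ∈ Ω, Lin.inc hL F (c ω) * Mt hL F θ ω (K, w)
        = Lin.inc hL F (c (K, w)) * algebraMap F (KA F hL) ((-1) ^ (∑ t, K t)) := by
    intro K hK
    have h1 : ∀ ω ∈ Ω, ω ≠ (K, w) → Lin.inc hL F (c ω) * Mt hL F θ ω (K, w) = 0 := by
      intro ω _ hne
      by_cases hcω : c ω = 0
      · rw [hcω, map_zero, zero_mul]
      unfold Mt
      split_ifs with h2
      · by_cases hb : bin θ ω.1 K = 0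
        · rw [hb, map_zero, mul_zero]
        · exfalso
          have h3 : ∑ t, ω.1 t ≤ ∑ t, K t := by rw [hK]; exact hmax' ω hcω
          rcases bin_near θ hb (h3.trans (Nat.le_succ _)) with h4 | ⟨t, h4⟩
          · exact hne (Prod.ext h4 h2)
          · rw [h4, sum_up] at h3
            omega
      · rw [mul_zero]
    have h2 : (K, w) ∉ Ω → Lin.inc hL F (c (K, w)) * Mt hL F θ (K, w) (K, w) = 0 := by
      intro hn
      rw [hcΩ _ hn, map_zero, zero_mul]
    rw [Finset.sum_eq_single (K, w) h1 h2]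
    unfold Mt
    rw [if_pos rfl, bin_self]
  -- the relation vector below
  have hlow : ∑ ω ∈ Ω, Lin.inc hL F (c ω) * Mt hL F θ ω (J, w)
      = algebraMap F (KA F hL) ((-1) ^ (∑ t, J t)) * (Lin.inc hL F (c (J, w))
        + ∑ t, Lin.inc hL F (c (up J t, w)) * algebraMap F (KA F hL) (((J t : F) + 1) * θ t)) := by
    have h1 : ∑ ω ∈ Ω, Lin.inc hL F (c ω) * Mt hL F θ ω (J, w)
        = ∑ ω ∈ insert (J, w) (Finset.univ.image fun t => (up J t, w)),
            Lin.inc hL F (c ω) * Mt hL F θ ω (J, w) := by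
      have e1 : ∑ ω ∈ Ω, Lin.inc hL F (c ω) * Mt hL F θ ω (J, w)
          = ∑ ω ∈ Ω ∪ insert (J, w) (Finset.univ.image fun t => (up J t, w)),
            Lin.inc hL F (c ω) * Mt hL F θ ω (J, w) := by
        apply Finset.sum_subset Finset.subset_union_left
        intro ω _ hn
        rw [hcΩ _ hn, map_zero, zero_mul]
      rw [e1]
      symm
      apply Finset.sum_subset Finset.subset_union_right
      intro ω _ hn
      by_cases hcω : c ω = 0
      · rw [hcω, map_zero, zero_mul]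
      unfold Mt
      split_ifs with h2
      · by_cases hb : bin θ ω.1 J = 0
        · rw [hb, map_zero, mul_zero]
        · exfalso
          apply hn
          rw [Finset.mem_insert, Finset.mem_image]
          rcases bin_near θ hb ((hmax' ω hcω).trans hIJ.le) with h4 | ⟨t, h4⟩
          · exact Or.inl (Prod.ext h4 h2)
          · exact Or.inr ⟨t, Finset.mem_univ t, Prod.ext h4.symm h2.symm⟩
      · rw [mul_zero]
    rw [h1, Finset.sum_insert (by
      rw [Finset.mem_image]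
      rintro ⟨t, _, ht⟩
      have h2 := congrArg (fun p : Om σ m => ∑ s, p.1 s) ht
      simp only [sum_up] at h2
      omega), Finset.sum_image (by
      intro a _ b _ hab
      by_contra hne
      have h2 := congrFun (Prod.mk.inj hab).1 a
      rw [up_self, up_ne J hne] at h2
      omega)]
    have h2 : Mt hL F θ (J, w) (J, w) = algebraMap F (KA F hL) ((-1) ^ (∑ t, J t)) := by
      unfold Mt
      rw [if_pos rfl, bin_self]
    have h3 : ∀ t, Mt hL F θ (up J t, w) (J, w)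
        = algebraMap F (KA F hL) ((-1) ^ (∑ t, J t)) * algebraMap F (KA F hL) (((J t : F) + 1) * θ t) := by
      intro t
      unfold Mt
      rw [if_pos rfl, bin_succ, map_mul]
    rw [h2]
    simp only [h3]
    rw [mul_add, Finset.mul_sum]
    congr 1
    · ring
    · exact Finset.sum_congr rfl fun t _ => by ring
  have hneg : ∀ k : ℕ, algebraMap F (KA F hL) ((-1) ^ k) ≠ 0 := by
    intro k h0
    have h1 : algebraMap F (KA F hL) ((-1) ^ k) * algebraMap F (KA F hL) ((-1) ^ k) = 1 := by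
      rw [← map_mul, ← pow_add, Even.neg_one_pow ⟨k, rfl⟩, map_one]
    rw [h0, zero_mul] at h1
    exact zero_ne_one h1
  have hinc : ∀ a : KK L hL, a ≠ 0 → Lin.inc hL F a ≠ 0 := fun a ha h0 =>
    ha ((map_eq_zero (Lin.inc hL F)).1 h0)
  have htop' : ∀ K : σ → ℕ, ∑ t, K t = ∑ t, I t → c (K, w) ≠ 0 →
      ∑ ω ∈ Ω, Lin.inc hL F (c ω) * Mt hL F θ ω (K, w) ≠ 0 := by
    intro K hK hcK
    rw [htop K hK]
    exact mul_ne_zero (hinc _ hcK) (hneg _)
  -- the lower coefficient vanishes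
  have hlow0 : ∑ ω ∈ Ω, Lin.inc hL F (c ω) * Mt hL F θ ω (J, w) = 0 := by
    by_contra hn
    have h1 := h (I, w) hω0Ω hc0 (J, w) (hΩ _ hω0Ω J (by rw [hI]; exact le_up J s)) hn
    rw [hI, mu_up H] at h1
    have := H.pos s
    linarith
  rw [hlow] at hlow0
  have hrel := (mul_eq_zero.1 hlow0).resolve_left (hneg _)
  -- all occurring weights are equal
  have hw : ∀ t, c (up J t, w) ≠ 0 → lv B none (g t) = lv B none (g s) := by
    intro t ht
    have hK : ∑ r, up J t r = ∑ r, I r := by rw [sum_up, hIJ]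
    have hΩt : (up J t, w) ∈ Ω := by
      by_contra hn
      exact ht (hcΩ _ hn)
    have h1 := h (I, w) hω0Ω hc0 (up J t, w) hΩt (htop' _ hK ht)
    have h2 := h (up J t, w) hΩt ht (I, w) hω0Ω (htop' I rfl hc0)
    rw [hI, mu_up H, mu_up H] at h1 h2
    linarith
  -- independence
  have hrel' : ((Lin.inc hL F (c (J, w)) + ∑ t, Lin.inc hL F (c (up J t, w)) *
      algebraMap F (KA F hL) (((J t : F) + 1) * θ t) : KA F hL) : HR) = 0 := by
    rw [hrel]; rfl
  have hdis := disj_thm (Option {t : σ // lv B none (g t) = lv B none (g s)}) inferInstance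
    (fun o => (o.elim 1 (fun t => (θ t : ℝ)) : ℝ)) (H.ind s)
    (fun o => o.elim ((c (J, w) : KK L hL) : GG)
      (fun t => ((J t.1 : GG) + 1) * ((c (up J t.1, w) : KK L hL) : GG))) (by
      rw [Fintype.sum_option]
      simp only [Option.elim]
      rw [map_one, one_mul]
      rw [← hrel', AddMemClass.coe_add, AddSubmonoidClass.coe_finsetSum]
      congr 1
      have e2 : ∑ t, ((Lin.inc hL F (c (up J t, w)) *
          algebraMap F (KA F hL) (((J t : F) + 1) * θ t) : KA F hL) : HR)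
          = ∑ t : {t : σ // lv B none (g t) = lv B none (g s)}, ((Lin.inc hL F (c (up J t.1, w)) *
          algebraMap F (KA F hL) (((J t.1 : F) + 1) * θ t.1) : KA F hL) : HR) := by
        rw [← Finset.sum_filter_of_ne (p := fun t => lv B none (g t) = lv B none (g s))
          (s := Finset.univ)]
        · exact Finset.sum_subtype _ (by simp) _
        · intro t _ hne
          apply hw t
          intro h0
          apply hne
          rw [h0, map_zero, zero_mul]
          rfl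
      rw [e2]
      refine Finset.sum_congr rfl fun t _ => ?_
      have e3 : ((algebraMap F (KA F hL) (((J t.1 : F) + 1) * θ t.1) : KA F hL) : HR)
          = algebraMap ℝ HR (((J t.1 : ℝ) + 1) * (θ t.1 : ℝ)) := by
        have e4 : (((((J t.1 : F) + 1) * θ t.1 : F)) : ℝ) = ((J t.1 : ℝ) + 1) * (θ t.1 : ℝ) := by
          push_cast; ring
        rw [← e4]; rfl
      rw [MulMemClass.coe_mul, e3, Lin.inc_coe, map_mul, map_mul, map_add, map_add, map_one, map_one,
        map_natCast, map_natCast]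
      ring)
  have hfin := hdis (some ⟨s, rfl⟩)
  simp only [Option.elim] at hfin
  rcases mul_eq_zero.1 hfin with h1 | h1
  · have h2 : ((J s + 1 : ℕ) : GG) = 0 := by push_cast; exact h1
    have h3 : ((J s + 1 : ℕ) : GG) = gm (fun _ => ((J s + 1 : ℕ) : ℚ)) := rfl
    rw [h3] at h2
    have h4 : gm (fun _ => ((J s + 1 : ℕ) : ℚ)) ≠ 0 := by
      rw [gm_ne_zero]
      exact Eventually.of_forall fun n => by positivity
    exact h4 h2
  · apply hc0
    rw [hI]
    exact Subtype.ext h1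

end Pool.Agent.Q4.Blk
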