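import Mathlib
import Pool.Agent.Q4.Blk.Ind

set_option autoImplicit false
set_option linter.unusedSectionVars false

/-!
# Independence of the monomials, values of polynomials at the finite places
-/

namespace Pool.Agent.Q4.Blk

open Filter Topology Pool.Agent.TH932.Abs Pool.Agent.TH932.Germs Pool.Agent.TH932.Chi
open Pool.Agent.TH796.AL

variable {m : ℕ} {B : Base m} {L : ℕ → ℝ} (hL : Tendsto L atTop atTop)
variable {F : IntermediateField ℚ ℝ} [FiniteDimensional ℚ F] {σ : Type} [Fintype σ] [DecidableEq σ]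
variable {θ : σ → F} {g : σ → Fin m → ℝ} {y : σ → GG} (H : Fam B L F θ g y)

include H in
/-- a relation between characters is trivial -/
lemma char_rel (Ω : Finset (Om σ m)) (c : Om σ m → KK L hL) (hcΩ : ∀ ω ∉ Ω, c ω = 0)
    (hc : ∑ ω ∈ Ω, (c ω : GG) * xx hL y B ω = 0) (h0 : ∀ ω, c ω ≠ 0 → ω.1 = 0) :
    ∀ ω, c ω = 0 := by
  classical
  have _ := H
  by_contra hcon
  push Not at hcon
  obtain ⟨ω0, hω0⟩ := hcon
  have h1 := su_thm m B L hL (∑ ω ∈ Ω, AddMonoidAlgebra.single ω.2 (c ω)) (by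
    rw [map_sum, ← hc]
    refine Finset.sum_congr rfl fun ω _ => ?_
    rw [ev_single]
    by_cases h : c ω = 0
    · rw [h]; simp
    · congr 1
      unfold xx
      rw [h0 ω h]
      simp)
  have h2 := congrArg (fun f : Rg m hL => f.coeff ω0.2) h1
  rw [AddMonoidAlgebra.coeff_sum, Finsupp.finsetSum_apply, Finset.sum_eq_single ω0] at h2
  · apply hω0
    simpa using h2
  · intro ω _ hne
    by_cases h : c ω = 0
    · rw [h]; simp
    · have h3 : ω.2 ≠ ω0.2 := by
        intro h4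
        apply hne
        exact Prod.ext ((h0 ω h).trans (h0 ω0 hω0).symm) h4
      simp [h3]
  · intro hn
    exact absurd (hcΩ _ hn) hω0

include H in
/-- **The monomials are independent over the negligible rational germs.** -/
theorem indep (n : ℕ) : ∀ (Ω : Finset (Om σ m)), Ω.card = n → Dn Ω → ∀ c : Om σ m → KK L hL,
    (∀ ω ∉ Ω, c ω = 0) → ∑ ω ∈ Ω, (c ω : GG) * xx hL y B ω = 0 → ∀ ω, c ω = 0 := by
  classical
  induction n using Nat.strong_induction_on with
  | _ n ih =>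
    intro Ω hcard hΩ c hcΩ hc
    by_contra hcon
    push Not at hcon
    obtain ⟨ω1, hω1⟩ := hcon
    have hω1Ω : ω1 ∈ Ω := by
      by_contra hn
      exact hω1 (hcΩ _ hn)
    obtain ⟨ωm, hωm, hmax⟩ := Finset.exists_max_image Ω (fun ω => ∑ s, ω.1 s) ⟨ω1, hω1Ω⟩
    have hdn : Dn (Ω.erase ωm) := by
      intro ω hω J hJ
      have hωΩ := Finset.mem_of_mem_erase hω
      refine Finset.mem_erase.2 ⟨?_, hΩ ω hωΩ J hJ⟩
      intro he
      have h1 : ∑ s, ω.1 s ≤ ∑ s, J s := by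
        have := hmax ω hωΩ
        rw [← he] at this
        exact this
      have h2 : J = ω.1 := by
        funext s
        by_contra hne
        have h3 : J s < ω.1 s := lt_of_le_of_ne (hJ s) hne
        have h4 : ∑ t, J t < ∑ t, ω.1 t :=
          Finset.sum_lt_sum (fun t _ => hJ t) ⟨s, Finset.mem_univ s, h3⟩
        omega
      apply Finset.ne_of_mem_erase hω
      rw [← he, h2]
    have hcd : (Ω.erase ωm).card < n := by
      rw [Finset.card_erase_of_mem hωm, hcard]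
      have : 0 < n := by rw [← hcard]; exact Finset.card_pos.2 ⟨_, hωm⟩
      omega
    -- relations vanishing at `ωm`
    have hvan : ∀ c' : Om σ m → KK L hL, (∀ ω ∉ Ω, c' ω = 0) →
        ∑ ω ∈ Ω, (c' ω : GG) * xx hL y B ω = 0 → c' ωm = 0 → ∀ ω, c' ω = 0 := by
      intro c' h1 h2 h3
      refine ih _ hcd (Ω.erase ωm) rfl hdn c' ?_ ?_
      · intro ω hω
        by_cases he : ω = ωm
        · rw [he]; exact h3
        · exact h1 ω fun h => hω (Finset.mem_erase.2 ⟨he, h⟩)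
      · rw [← Finset.sum_erase_add _ _ hωm, h3] at h2
        simpa using h2
    have hcm : c ωm ≠ 0 := fun h0 => hω1 (hvan c hcΩ hc h0 ω1)
    have hun : ∀ i0, c i0 ≠ 0 → ∀ c' : Om σ m → KK L hL, (∀ ω ∉ Ω, c' ω = 0) →
        ∑ ω ∈ Ω, (c' ω : GG) * xx hL y B ω = 0 → c' i0 = 0 → ∀ ω, c' ω = 0 := by
      intro i0 hi0 c' h1 h2 h3
      have h4 := hvan (fun ω => c' ω - c' ωm * (c ωm)⁻¹ * c ω) (fun ω hω => by
        rw [h1 ω hω, hcΩ ω hω, mul_zero, sub_zero]) (by
        have e : ∀ ω, ((c' ω - c' ωm * (c ωm)⁻¹ * c ω : KK L hL) : GG) * xx hL y B ω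
            = (c' ω : GG) * xx hL y B ω
              - ((c' ωm * (c ωm)⁻¹ : KK L hL) : GG) * ((c ω : GG) * xx hL y B ω) := by
          intro ω
          push_cast
          ring
        simp only [e]
        rw [Finset.sum_sub_distrib, ← Finset.mul_sum, hc, h2, mul_zero, sub_zero]) (by
        rw [mul_assoc, inv_mul_cancel₀ hcm, mul_one, sub_self])
      have h5 := h4 i0
      simp only [h3, zero_sub, neg_eq_zero] at h5
      have h6 : c' ωm * (c ωm)⁻¹ = 0 := (mul_eq_zero.1 h5).resolve_right hi0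
      intro ω
      have h7 := h4 ω
      simp only [h6, zero_mul, sub_zero] at h7
      exact h7
    have h0 := combi hL H Ω c hcΩ hΩ (fun i0 hi hi0 j0 hj hj0 =>
      rel hL H Ω hΩ c hc i0 hi hi0 (hun i0 hi0) j0 hj hj0)
    exact hω1 (char_rel hL H Ω c hcΩ hc h0 ω1)

include H in
/-- **The finite part of a combination of monomials.** -/
theorem divis (Ω : Finset (Om σ m)) (hΩ : Dn Ω) (c : Om σ m → KK L hL)
    (e : Fin m → ℝ) (hP : ∀ v, ∑ ω ∈ Ω, (c ω : GG) * xx hL y B ω ∈ Sv B L (some v) (e v))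
    (i0 : Om σ m) (hi : i0 ∈ Ω) (hi0 : c i0 ≠ 0) :
    ∑ v, e v ≤ -lv B none (sh g i0) := by
  classical
  obtain ⟨C, hC⟩ := exists_C (B := B) Ω
  obtain ⟨P, hPdef⟩ : ∃ P : GG, P = ∑ ω ∈ Ω, (c ω : GG) * xx hL y B ω := ⟨_, rfl⟩
  rw [← hPdef] at hP
  set x : {ω // ω ∈ Ω} → GG := fun ω => xx hL y B ω.1 with hx
  have hPs : P = ∑ ω : {ω // ω ∈ Ω}, (c ω.1 : GG) * x ω :=
    hPdef.trans (Finset.sum_coe_sort Ω (fun ω => (c ω : GG) * xx hL y B ω)).symm
  set i1 : {ω // ω ∈ Ω} := ⟨i0, hi⟩ with hi1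
  have hci1 : c i1.1 ≠ 0 := hi0
  -- independence
  have hxi : ∀ a : {ω // ω ∈ Ω} → KK L hL, ∑ i, (a i : GG) * x i = 0 → ∀ i, a i = 0 := by
    intro a ha i
    have h1 := indep hL H _ Ω rfl hΩ (fun ω => if h : ω ∈ Ω then a ⟨ω, h⟩ else 0)
      (fun ω hω => dif_neg hω) (by
        rw [← ha, ← Finset.sum_coe_sort Ω]
        refine Finset.sum_congr rfl fun ω _ => ?_
        rw [dif_pos ω.2]) i.1
    rw [dif_pos i.2] at h1
    exact h1
  have hxA := ind_KA hL F x hxi
  have hMsq : ∀ i k : {ω // ω ∈ Ω}, ∑ j : {ω // ω ∈ Ω}, Mt hL F θ i.1 j.1 * Mt hL F θ j.1 k.1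
      = if i = k then 1 else 0 := by
    intro ω ω'
    rw [Finset.sum_coe_sort Ω (fun j => Mt hL F θ ω.1 j * Mt hL F θ j ω'.1),
      Mt_sq hL F θ hΩ ω.2]
    simp only [Subtype.ext_iff]
  have hz : ∀ i : {ω // ω ∈ Ω}, zz hL F θ y B i.1
      = ∑ j : {ω // ω ∈ Ω}, (Mt hL F θ i.1 j.1 : HR) * rho (x j) := by
    intro ω
    rw [zz_eq hL F θ y hΩ ω.2]
    exact (Finset.sum_coe_sort Ω (fun j => (Mt hL F θ ω.1 j : HR) * rho (xx hL y B j))).symm
  set x' : {ω // ω ∈ Ω} → GG := fun i => if i = i1 then P else x i with hx'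
  have hx'1 : x' i1 = P := by simp [hx']
  have hx'2 : ∀ i, i ≠ i1 → x' i = x i := fun i h => by simp [hx', h]
  have hPs' : P = ∑ i : {i // i ≠ i1}, (c i.1.1 : GG) * x i.1 + (c i1.1 : GG) * x i1 := by
    rw [hPs, sum_ne i1]
  have hx1 : x i1 = ((c i1.1)⁻¹ : KK L hL) * P
      - ∑ i : {i // i ≠ i1}, ((c i.1.1 * (c i1.1)⁻¹ : KK L hL) : GG) * x i.1 := by
    have h0 : (c i1.1 : GG) ≠ 0 := fun h => hci1 (Subtype.ext h)
    have h1 : (c i1.1 : GG) * x i1 = P - ∑ i : {i // i ≠ i1}, (c i.1.1 : GG) * x i.1 := by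
      rw [hPs']; ring
    have h3 : x i1 = (c i1.1 : GG)⁻¹ * ((c i1.1 : GG) * x i1) := by
      rw [inv_mul_cancel_left₀ h0]
    rw [h3, h1, mul_sub, Finset.mul_sum]
    congr 1
    refine Finset.sum_congr rfl fun i _ => ?_
    push_cast
    ring
  have hPA : rho (x i1) = ((Lin.inc hL F ((c i1.1)⁻¹) : KA F hL) : HR) * rho P
      - ∑ i : {i // i ≠ i1}, ((Lin.inc hL F (c i.1.1 * (c i1.1)⁻¹) : KA F hL) : HR)
        * rho (x i.1) := by
    conv_lhs => rw [hx1]
    rw [map_sub, map_mul, map_sum, Lin.inc_coe]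
    congr 1
    refine Finset.sum_congr rfl fun i _ => ?_
    rw [map_mul, Lin.inc_coe]
  have key := mova_thm m B L hL F inferInstance {ω // ω ∈ Ω} inferInstance x'
    (fun i => zz hL F θ y B i.1)
    (fun v i => if i = i1 then e v else lv B (some v) (sh g i.1)) (fun i => lv B none (sh g i.1))
    ?_ ?_ ?_ ?_ (fun ω => H.z_inf hL _) ?_ C ?_
  · have e1 : ∀ v, ∑ i : {ω // ω ∈ Ω}, (if i = i1 then e v else lv B (some v) (sh g i.1))
        = ∑ i : {ω // ω ∈ Ω}, lv B (some v) (sh g i.1) + (e v - lv B (some v) (sh g i1.1)) := by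
      intro v
      rw [sum_ne i1, if_pos rfl, sum_ne i1 (fun i : {ω // ω ∈ Ω} => lv B (some v) (sh g i.1))]
      have : ∀ i : {i : {ω // ω ∈ Ω} // i ≠ i1},
          (if i.1 = i1 then e v else lv B (some v) (sh g i.1.1)) = lv B (some v) (sh g i.1.1) :=
        fun i => if_neg i.2
      simp only [this]
      ring
    simp only [e1] at key
    rw [Finset.sum_add_distrib, Finset.sum_sub_distrib, sum_fin_lv] at key
    have e2 : ∑ v, ∑ i : {ω // ω ∈ Ω}, lv B (some v) (sh g i.1)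
        + ∑ i : {ω // ω ∈ Ω}, lv B none (sh g i.1) = 0 := by
      rw [Finset.sum_comm, ← Finset.sum_add_distrib]
      refine Finset.sum_eq_zero fun ω _ => ?_
      rw [sum_fin_lv]
      ring
    linarith
  · -- independence of `x'`
    intro a ha
    rw [sum_ne i1, hx'1, hPs'] at ha
    have ha2 : ∑ i : {i // i ≠ i1}, (a i.1 : GG) * x' i.1
        = ∑ i : {i // i ≠ i1}, (a i.1 : GG) * x i.1 :=
      Finset.sum_congr rfl fun i _ => by rw [hx'2 i.1 i.2]
    rw [ha2] at ha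
    have h1 := hxi (fun i => if i = i1 then a i1 * c i1.1 else a i + a i1 * c i.1) (by
      rw [sum_ne i1, if_pos rfl, ← ha, mul_add, Finset.mul_sum, ← add_assoc,
        ← Finset.sum_add_distrib]
      congr 1
      · refine Finset.sum_congr rfl fun i _ => ?_
        rw [if_neg i.2]
        push_cast
        ring
      · push_cast
        ring)
    have h2 : a i1 = 0 := by
      have := h1 i1
      rw [if_pos rfl] at this
      exact (mul_eq_zero.1 this).resolve_right hci1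
    intro i
    by_cases hii : i = i1
    · rw [hii, h2]
    · have := h1 i
      rw [if_neg hii, h2, zero_mul, add_zero] at this
      exact this
  · -- independence of the forms
    intro a ha k
    have h1 : ∀ j : {ω // ω ∈ Ω}, ∑ i : {ω // ω ∈ Ω}, a i * Mt hL F θ i.1 j.1 = 0 := by
      apply hxA
      rw [← ha]
      simp only [hz, Finset.mul_sum]
      rw [Finset.sum_comm]
      refine Finset.sum_congr rfl fun i _ => ?_
      rw [AddSubmonoidClass.coe_finsetSum, Finset.sum_mul]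
      refine Finset.sum_congr rfl fun j _ => ?_
      rw [MulMemClass.coe_mul, mul_assoc]
    have h2 : a k = ∑ j : {ω // ω ∈ Ω}, (∑ i : {ω // ω ∈ Ω}, a i * Mt hL F θ i.1 j.1)
        * Mt hL F θ j.1 k.1 := by
      simp only [Finset.sum_mul]
      rw [Finset.sum_comm]
      have h3 : ∀ i : {ω // ω ∈ Ω}, ∑ j : {ω // ω ∈ Ω}, a i * Mt hL F θ i.1 j.1 * Mt hL F θ j.1 k.1
          = a i * (if i = k then 1 else 0) := by
        intro i
        rw [← hMsq i k, Finset.mul_sum]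
        exact Finset.sum_congr rfl fun j _ => mul_assoc _ _ _
      simp only [h3]
      simp
    rw [h2]
    refine Finset.sum_eq_zero fun j _ => ?_
    rw [h1 j, zero_mul]
  · -- the span
    intro i
    refine ⟨fun j => if j = i1 then Mt hL F θ i.1 i1.1 * Lin.inc hL F ((c i1.1)⁻¹)
      else Mt hL F θ i.1 j.1 - Mt hL F θ i.1 i1.1 * Lin.inc hL F (c j.1 * (c i1.1)⁻¹), ?_⟩
    rw [hz, sum_ne i1, sum_ne i1 (fun j : {ω // ω ∈ Ω} => ((if j = i1 then Mt hL F θ i.1 i1.1 *
      Lin.inc hL F ((c i1.1)⁻¹) else Mt hL F θ i.1 j.1 - Mt hL F θ i.1 i1.1 *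
      Lin.inc hL F (c j.1 * (c i1.1)⁻¹) : KA F hL) : HR) * rho (x' j)), if_pos rfl, hx'1, hPA]
    have h1 : ∑ j : {j // j ≠ i1}, ((if j.1 = i1 then Mt hL F θ i.1 i1.1 *
        Lin.inc hL F ((c i1.1)⁻¹) else Mt hL F θ i.1 j.1.1 - Mt hL F θ i.1 i1.1 *
        Lin.inc hL F (c j.1.1 * (c i1.1)⁻¹) : KA F hL) : HR) * rho (x' j.1)
        = ∑ j : {j // j ≠ i1}, ((Mt hL F θ i.1 j.1.1 : HR) * rho (x j.1)
          - (Mt hL F θ i.1 i1.1 : HR) * ((Lin.inc hL F (c j.1.1 * (c i1.1)⁻¹) : KA F hL) : HR)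
            * rho (x j.1)) := by
      refine Finset.sum_congr rfl fun j _ => ?_
      rw [if_neg j.2, hx'2 j.1 j.2, AddSubgroupClass.coe_sub, MulMemClass.coe_mul]
      ring
    rw [h1, Finset.sum_sub_distrib, mul_sub, Finset.mul_sum, MulMemClass.coe_mul]
    have h2 : ∑ j : {j // j ≠ i1}, (Mt hL F θ i.1 i1.1 : HR) *
        (((Lin.inc hL F (c j.1.1 * (c i1.1)⁻¹) : KA F hL) : HR) * rho (x j.1))
        = ∑ j : {j // j ≠ i1}, (Mt hL F θ i.1 i1.1 : HR) *
        ((Lin.inc hL F (c j.1.1 * (c i1.1)⁻¹) : KA F hL) : HR) * rho (x j.1) :=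
      Finset.sum_congr rfl fun j _ => by ring
    rw [h2]
    ring
  · -- finite places
    intro v i
    by_cases hii : i = i1
    · rw [hii, hx'1, if_pos rfl]; exact hP v
    · rw [hx'2 i hii, if_neg hii]; exact H.x_fin hL v _
  · intro i
    by_cases hii : i = i1
    · rw [hii, hx'1, hPdef]
      exact Sint.sum hL _ _ fun ω _ => Sint.mul hL (Sint.alg hL _) (H.x_int hL _)
    · rw [hx'2 i hii]; exact H.x_int hL _
  · intro i
    by_cases hii : i = i1
    · rw [hii, hx'1, hPdef, map_sum]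
      refine SR_sum hL _ _ fun ω hω => ?_
      rw [map_mul]
      have := SR_mul hL (SR_rho ((filt_v (B := B) hL none).alg_mem (c ω)))
        (SR_anti hL (hC _ hω) (H.x_bd hL ω))
      rwa [zero_add] at this
    · rw [hx'2 i hii]
      exact SR_anti hL (hC _ i.2) (H.x_bd hL _)

end Pool.Agent.Q4.Blk
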