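import Mathlib
import Pool.Agent.Q4.Blk.Div

set_option autoImplicit false
set_option linter.unusedSectionVars false

/-!
# Germs of integers composed of given primes
-/

namespace Pool.Agent.Q4.Blk

open Filter Topology Pool.Agent.TH932.Abs Pool.Agent.TH932.Germs Pool.Agent.TH932.Chi
open Pool.Agent.TH796.AL

/-- the part of an integer composed of the primes of `S` -/
def spart (S : Finset ℕ) (x : ℤ) : ℕ := ∏ p ∈ S, p ^ (x.natAbs.factorization p)

/-- the primes of `S` as a base -/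
noncomputable def bas (S : Finset ℕ) (hS : ∀ p ∈ S, p.Prime) : Base S.card where
  P := fun i => (S.equivFin.symm i : ℕ)
  two := fun i => (hS _ (S.equivFin.symm i).2).two_le
  cop := by
    intro i j hij
    rw [Nat.isCoprime_iff_coprime, Nat.coprime_primes (hS _ (S.equivFin.symm i).2)
      (hS _ (S.equivFin.symm j).2)]
    intro h
    apply hij
    exact S.equivFin.symm.injective (Subtype.ext h)

section
variable {S : Finset ℕ} (hS : ∀ p ∈ S, p.Prime)

lemma bas_prime (i : Fin S.card) : ((bas S hS).P i).Prime := hS _ (S.equivFin.symm i).2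

lemma prod_bas {A : Type*} [CommMonoid A] (f : ℕ → A) : ∏ i, f ((bas S hS).P i) = ∏ p ∈ S, f p := by
  rw [← Finset.prod_coe_sort S f]
  exact Equiv.prod_comp S.equivFin.symm (fun p : S => f (p : ℕ))

lemma sum_bas (f : ℕ → ℝ) : ∑ i, f ((bas S hS).P i) = ∑ p ∈ S, f p := by
  rw [← Finset.sum_coe_sort S f]
  exact Equiv.sum_comp S.equivFin.symm (fun p : S => f (p : ℕ))

/-- numbers composed of the primes of `S` -/
lemma eq_prod {r : ℕ} (hr : r ≠ 0) (hrS : r.primeFactors ⊆ S) :
    r = ∏ i, (bas S hS).P i ^ (r.factorization ((bas S hS).P i)) := by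
  rw [prod_bas hS (fun p => p ^ (r.factorization p))]
  conv_lhs => rw [← Nat.prod_factorization_pow_eq_self hr]
  exact Finsupp.prod_of_support_subset _ (by rwa [Nat.support_factorization]) _ (by simp)

lemma spart_eq (x : ℤ) : spart S x = ∏ i, (bas S hS).P i ^ (x.natAbs.factorization ((bas S hS).P i)) :=
  (prod_bas hS (fun p => p ^ (x.natAbs.factorization p))).symm

lemma log_prod_bas (k : Fin S.card → ℕ) :
    Real.log ((∏ i, (bas S hS).P i ^ (k i) : ℕ) : ℝ) = ∑ i, (k i : ℝ) * Real.log ((bas S hS).P i) := by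
  rw [Nat.cast_prod, Real.log_prod]
  · refine Finset.sum_congr rfl fun v _ => ?_
    rw [Nat.cast_pow, Real.log_pow]
  · intro v _
    have := (bas S hS).pos v
    positivity

include hS in
lemma spart_pos (x : ℤ) : 0 < spart S x := Finset.prod_pos fun p hp => pow_pos (hS p hp).pos _

include hS in
lemma spart_dvd (x : ℤ) : (spart S x : ℤ) ∣ x := by
  by_cases hx : x = 0
  · rw [hx]; exact dvd_zero _
  have hx' : x.natAbs ≠ 0 := Int.natAbs_ne_zero.2 hx
  have h1 : spart S x ∣ x.natAbs := by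
    have h2 : spart S x = ∏ p ∈ S ∩ x.natAbs.primeFactors, p ^ (x.natAbs.factorization p) := by
      unfold spart
      symm
      apply Finset.prod_subset Finset.inter_subset_left
      intro p hp hn
      have : p ∉ x.natAbs.primeFactors := fun h => hn (Finset.mem_inter.2 ⟨hp, h⟩)
      rw [← Nat.support_factorization, Finsupp.notMem_support_iff] at this
      rw [this, pow_zero]
    rw [h2]
    conv_rhs => rw [← Nat.prod_factorization_pow_eq_self hx', Nat.prod_factorization_eq_prod_primeFactors]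
    exact Finset.prod_dvd_prod_of_subset _ _ _ Finset.inter_subset_right
  exact Int.natCast_dvd.2 h1

end

/-- bounded sequences converge along the ultrafilter -/
lemma exists_lim (f : ℕ → ℝ) (K : ℝ) (h : ∀ᶠ n in (UU : Filter ℕ), 0 ≤ f n ∧ f n ≤ K) :
    ∃ x, Tendsto f (UU : Filter ℕ) (𝓝 x) := by
  obtain ⟨x, _, hx⟩ := (isCompact_Icc (a := (0 : ℝ)) (b := K)).ultrafilter_le_nhds (UU.map f) (by
    rw [Filter.le_principal_iff, Ultrafilter.coe_map, Filter.mem_map]
    exact h)
  exact ⟨x, hx⟩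

variable {m : ℕ} {B : Base m} {L : ℕ → ℝ} (hL : Tendsto L atTop atTop)

include hL in
lemma L_pos : ∀ᶠ n in (UU : Filter ℕ), 0 < L n := ev_of_atTop (hL.eventually_gt_atTop 0)

/-- germs of numbers composed of the primes -/
lemma unit_germ (k : ℕ → Fin m → ℕ) (C : ℝ)
    (hk : ∀ᶠ n in (UU : Filter ℕ), ∑ i, (k n i : ℝ) * Real.log (B.P i) ≤ C * L n) :
    ∃ (h : Fin m → ℝ) (κ : KK L hL), κ ≠ 0 ∧
      gm (fun n => ((∏ i, B.P i ^ (k n i) : ℕ) : ℚ)) = (κ : GG) * ch B hL h ∧
      ∀ i, Tendsto (fun n => (k n i : ℝ) * Real.log (B.P i) / L n) (UU : Filter ℕ)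
        (𝓝 (lv B (some i) h)) := by
  have hlim : ∀ i, ∃ x, Tendsto (fun n => (k n i : ℝ) * Real.log (B.P i) / L n)
      (UU : Filter ℕ) (𝓝 x) := by
    intro i
    apply exists_lim _ C
    filter_upwards [hk, L_pos hL] with n h1 h2
    have h3 : ∀ j, 0 ≤ (k n j : ℝ) * Real.log (B.P j) := fun j => by
      have := B.log_pos j
      positivity
    refine ⟨div_nonneg (h3 i) h2.le, ?_⟩
    rw [div_le_iff₀ h2]
    exact (Finset.single_le_sum (f := fun j => (k n j : ℝ) * Real.log (B.P j))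
      (fun j _ => h3 j) (Finset.mem_univ i)).trans h1
  choose x hx using hlim
  have hx' : ∀ i, Tendsto (fun n => (k n i : ℝ) / L n) (UU : Filter ℕ)
      (𝓝 (x i / Real.log (B.P i))) := by
    intro i
    have h1 := (hx i).div_const (Real.log (B.P i))
    refine h1.congr fun n => ?_
    have := (B.log_pos i).ne'
    field_simp
  obtain ⟨κ, hκ, h⟩ := exists_const (B := B) hL (fun i => x i / Real.log (B.P i))
    (fun n i => (k n i : ℤ)) (by
      intro i ε hε
      have h1 := (hx' i).eventually (Metric.closedBall_mem_nhds _ hε)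
      filter_upwards [h1, L_pos hL] with n h2 h3
      rw [Real.dist_eq] at h2
      push_cast
      have h4 : (k n i : ℝ) - x i / Real.log (B.P i) * L n
          = ((k n i : ℝ) / L n - x i / Real.log (B.P i)) * L n := by
        field_simp
      rw [h4, abs_mul, abs_of_pos h3]
      exact mul_le_mul_of_nonneg_right h2 h3.le)
  refine ⟨fun i => x i / Real.log (B.P i), κ, hκ, ?_, ?_⟩
  · rw [← h]
    congr 1
    funext n
    push_cast
    simp only [zpow_natCast]
  · intro i
    have e : lv B (some i) (fun i => x i / Real.log (B.P i)) = x i := by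
      simp only [lv]
      have := (B.log_pos i).ne'
      field_simp
    rw [e]
    exact hx i

/-- germs of integers divisible by powers of a prime -/
lemma dvd_germ (hL : Tendsto L atTop atTop) (v : Fin m) (Z : ℕ → ℤ) (w : ℝ)
    (h : ∀ ε : ℝ, 0 < ε → ∀ᶠ n in (UU : Filter ℕ), ∃ k : ℕ, (B.P v : ℤ) ^ k ∣ Z n ∧
      (w - ε) * L n ≤ k * Real.log (B.P v)) :
    gm (fun n => (Z n : ℚ)) ∈ Sv B L (some v) w := by
  change gm _ ∈ SS L (Rv B (some v)) w
  rw [mem_SS]
  intro ε hε
  filter_upwards [h ε hε, L_nonneg hL] with t ht hLt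
  obtain ⟨k, ⟨y, hy⟩, hk⟩ := ht
  refine ⟨1, 1, y, k, one_ne_zero, ?_, (Pool.Agent.TH932.Germs.cop (B.P v)).one_mem, ?_, ?_⟩
  · simp only [Int.cast_one, abs_one]
    exact Real.one_le_exp (by positivity)
  · rw [hy]
    push_cast
    rw [zpow_natCast]
    ring
  · exact_mod_cast hk

lemma int_germ (hL : Tendsto L atTop atTop) (v : Fin m) (Z : ℕ → ℤ) :
    gm (fun n => (Z n : ℚ)) ∈ Sv B L (some v) 0 := by
  apply dvd_germ hL
  intro ε hε
  filter_upwards [L_nonneg hL] with n hn
  refine ⟨0, by simp, ?_⟩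
  simp only [Nat.cast_zero, zero_mul]
  nlinarith

lemma Sint_int (hL : Tendsto L atTop atTop) (Z : ℕ → ℤ) : Sint B L (gm (fun n => (Z n : ℚ))) := by
  refine ⟨0, ?_⟩
  rw [mem_SS]
  intro ε hε
  filter_upwards [L_nonneg hL] with t hLt
  refine ⟨1, Z t, fun _ => 0, one_ne_zero, ?_, by simp, ?_⟩
  · simp only [Int.cast_one, abs_one]
    exact Real.one_le_exp (by positivity)
  · intro v
    simp only [Int.cast_zero, zero_mul]
    nlinarith

/-- the quotient of an integer part -/
lemma quot (h : Fin m → ℝ) (κ : KK L hL) (hκ : κ ≠ 0) (N : ℕ → ℕ) (hN : ∀ n, N n ≠ 0)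
    (hNg : gm (fun n => (N n : ℚ)) = (κ : GG) * ch B hL h) (θ : ℝ) :
    (∀ v, gm (fun n => (⌊θ * N n⌋ : ℚ) / N n) ∈ Sv B L (some v) (-lv B (some v) h)) ∧
    (algebraMap ℝ HR θ - rho (gm (fun n => (⌊θ * N n⌋ : ℚ) / N n)) ∈ SR L (-lv B none h)) ∧
    Sint B L (gm (fun n => (⌊θ * N n⌋ : ℚ) / N n)) := by
  have hκ0 : (κ : GG) ≠ 0 := fun h0 => hκ (Subtype.ext h0)
  have hinv : (gm (fun n => (N n : ℚ)))⁻¹ = ((κ⁻¹ : KK L hL) : GG) * ch B hL (-h) := by
    rw [hNg, mul_inv, ch_neg]
    rfl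
  have e : gm (fun n => (⌊θ * N n⌋ : ℚ) / N n)
      = gm (fun n => (⌊θ * N n⌋ : ℚ)) * (gm (fun n => (N n : ℚ)))⁻¹ := by
    rw [gm_inv, gm_mul]
    congr 1
  refine ⟨?_, ?_, ?_⟩
  · intro v
    rw [e, hinv]
    have h1 := (filt_v (B := B) hL (some v)).mul_mem (int_germ (B := B) hL v fun n => ⌊θ * N n⌋)
      ((filt_v (B := B) hL (some v)).mul_mem ((filt_v (B := B) hL (some v)).alg_mem (κ⁻¹))
        (ch_mem (B := B) hL (some v) (-h)))
    rw [lv_neg, zero_add, zero_add] at h1
    exact h1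
  · have h1 : algebraMap ℝ HR θ - rho (gm (fun n => (⌊θ * N n⌋ : ℚ) / N n))
        = gr (fun n => θ * N n - ⌊θ * N n⌋) * rho ((gm (fun n => (N n : ℚ)))⁻¹) := by
      rw [gm_inv, rho_gm, rho_gm, cst_eq, gr_sub, gr_mul, gr_eq]
      refine Eventually.of_forall fun n => ?_
      have h2 : (N n : ℝ) ≠ 0 := by exact_mod_cast hN n
      push_cast
      field_simp
    rw [h1, hinv]
    have h2 : gr (fun n => θ * (N n : ℝ) - ⌊θ * N n⌋) ∈ SR L 0 := by
      rw [mem_SR]
      intro ε hε
      filter_upwards [L_nonneg hL] with n hn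
      have h3 := Int.floor_le (θ * N n)
      have h4 := Int.lt_floor_add_one (θ * N n)
      rw [abs_of_nonneg (by linarith)]
      calc θ * (N n : ℝ) - ⌊θ * N n⌋ ≤ 1 := by linarith
        _ ≤ Real.exp (-(0 - ε) * L n) := Real.one_le_exp (by nlinarith)
    have h3 := SR_rho ((filt_v (B := B) hL none).mul_mem
      ((filt_v (B := B) hL none).alg_mem (κ⁻¹)) (ch_mem (B := B) hL none (-h)))
    have h4 := SR_mul hL h2 h3
    rw [lv_neg, zero_add, zero_add] at h4
    exact h4
  · rw [e, hinv]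
    exact Sint.mul hL (Sint_int hL _) (Sint.mul hL (Sint.alg hL _) (ch_sint hL _))

/-- small integers are negligible -/
lemma small_mem (a : ℕ → ℤ) (h : ∀ ε : ℝ, 0 < ε → ∀ᶠ n in (UU : Filter ℕ),
    |(a n : ℝ)| ≤ Real.exp (ε * L n)) : gm (fun n => (a n : ℚ)) ∈ KK L hL := by
  refine ⟨a, fun _ => 1, h, Negl.one hL, by simp, ?_⟩
  congr 1
  funext n
  simp

end Pool.Agent.Q4.Blk
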