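import Mathlib
import Pool.Agent.Q4.Blk.Seq

set_option autoImplicit false
set_option linter.unusedSectionVars false

/-!
# Values of polynomials at integer parts
-/

namespace Pool.Agent.Q4.Blk

open Filter Topology Pool.Agent.TH932.Abs Pool.Agent.TH932.Germs Pool.Agent.TH932.Chi
open Pool.Agent.TH796.AL

lemma gm_sum {ι : Type*} (s : Finset ι) (f : ι → ℕ → ℚ) :
    ∑ i ∈ s, gm (f i) = gm (fun n => ∑ i ∈ s, f i n) := by
  classical
  induction s using Finset.induction_on with
  | empty => simp only [Finset.sum_empty]; exact gm_zero.symm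
  | insert i s hi ih =>
    rw [Finset.sum_insert hi, ih, gm_add]
    congr 1
    funext n
    rw [Finset.sum_insert hi]

lemma gm_prod {ι : Type*} (s : Finset ι) (f : ι → ℕ → ℚ) :
    ∏ i ∈ s, gm (f i) = gm (fun n => ∏ i ∈ s, f i n) := by
  classical
  induction s using Finset.induction_on with
  | empty => simp only [Finset.prod_empty]; exact gm_one.symm
  | insert i s hi ih =>
    rw [Finset.prod_insert hi, ih, gm_mul]
    congr 1
    funext n
    rw [Finset.prod_insert hi]

lemma ch_nsmul {m : ℕ} {B : Base m} {L : ℕ → ℝ} (hL : Tendsto L atTop atTop) (k : ℕ)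
    (h : Fin m → ℝ) : ch B hL ((k : ℝ) • h) = ch B hL h ^ k := by
  induction k with
  | zero => simp [ch_zero]
  | succ k ih =>
    rw [pow_succ, ← ih, ← ch_add]
    congr 1
    push_cast
    rw [add_smul, one_smul]

lemma ch_fsum {m : ℕ} {B : Base m} {L : ℕ → ℝ} (hL : Tendsto L atTop atTop) {ι : Type*}
    (s : Finset ι) (f : ι → Fin m → ℝ) : ch B hL (∑ i ∈ s, f i) = ∏ i ∈ s, ch B hL (f i) := by
  classical
  induction s using Finset.induction_on with
  | empty => simp [ch_zero]
  | insert i s hi ih => rw [Finset.sum_insert hi, Finset.prod_insert hi, ch_add, ih]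

/-- the size of a number composed of the primes -/
lemma lim_log {S : Finset ℕ} (hS : ∀ p ∈ S, p.Prime) {L : ℕ → ℝ} (k : ℕ → Fin S.card → ℕ)
    (h : Fin S.card → ℝ)
    (hk : ∀ i, Tendsto (fun n => (k n i : ℝ) * Real.log ((bas S hS).P i) / L n) (UU : Filter ℕ)
        (𝓝 (lv (bas S hS) (some i) h))) :
    Tendsto (fun n => Real.log ((∏ i, (bas S hS).P i ^ (k n i) : ℕ) : ℝ) / L n) (UU : Filter ℕ)
      (𝓝 (-lv (bas S hS) none h)) := by
  rw [← sum_fin_lv]
  have h1 := tendsto_finsetSum Finset.univ (fun i _ => hk i)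
  refine h1.congr fun n => ?_
  rw [log_prod_bas, Finset.sum_div]

theorem main_seq (S : Finset ℕ) (hS : ∀ p ∈ S, p.Prime) {σ J : Type} [Fintype σ] [DecidableEq σ]
    (pl : σ → J) (θ : σ → ℝ) (halg : ∀ s, IsAlgebraic ℚ (θ s))
    (hind : ∀ j, LinearIndependent ℚ
      (fun o : Option {s // pl s = j} => (o.elim 1 (fun s => θ s) : ℝ)))
    (d : ℕ) {δ C ε : ℝ} (hδ : 0 < δ) (hε : 0 < ε) (mm : ℕ → ℕ) (hmm : ∀ n, n ≤ mm n)
    (q : ℕ → J → ℕ) (hq0 : ∀ n j, q n j ≠ 0) (hqS : ∀ n j, (q n j).primeFactors ⊆ S)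
    (hqC : ∀ n j, Real.log (q n j) ≤ C * mm n) (hqδ : ∀ n j, δ * mm n ≤ Real.log (q n j))
    (hqq : ∀ n i j, i ≠ j → δ * mm n ≤ |Real.log (q n i) - Real.log (q n j)|)
    (f : ℕ → (σ → ℕ) → ℤ)
    (hf : ∀ n I, |(f n I : ℝ)| ≤ Real.exp ((mm n : ℝ) / (n + 1)) * spart S (f n I))
    (hfC : ∀ n I, Real.log (spart S (f n I)) ≤ C * mm n)
    (I0 : ℕ → (σ → ℕ)) (hI0 : ∀ n, I0 n ∈ Finset.Iic (fun _ : σ => d))
    (hfI0 : ∀ n, f n (I0 n) ≠ 0)
    (hbad : ∀ n, (∑ I ∈ Finset.Iic (fun _ : σ => d), f n I * ∏ s, ⌊θ s * q n (pl s)⌋ ^ (I s)) ≠ 0 →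
      Real.exp (ε * mm n) * spart S (f n (I0 n)) ≤
      spart S (∑ I ∈ Finset.Iic (fun _ : σ => d), f n I * ∏ s, ⌊θ s * q n (pl s)⌋ ^ (I s))) :
    False := by
  classical
  set B := bas S hS with hB
  set L : ℕ → ℝ := fun n => (mm n : ℝ) with hLdef
  have hL : Tendsto L atTop atTop :=
    tendsto_natCast_atTop_atTop.comp (tendsto_atTop_mono hmm tendsto_id)
  -- the units `q`
  have hqg : ∀ j, ∃ (h : Fin S.card → ℝ) (κ : KK L hL), κ ≠ 0 ∧
      gm (fun n => (q n j : ℚ)) = (κ : GG) * ch B hL h ∧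
      Tendsto (fun n => Real.log (q n j) / L n) (UU : Filter ℕ) (𝓝 (-lv B none h)) := by
    intro j
    have e : ∀ n, q n j = ∏ i, B.P i ^ ((q n j).factorization (B.P i)) := fun n =>
      eq_prod hS (hq0 n j) (hqS n j)
    obtain ⟨h, κ, h1, h2, h3⟩ := unit_germ (B := B) hL
      (fun n i => (q n j).factorization (B.P i)) C (Eventually.of_forall fun n => by
        rw [← log_prod_bas hS, ← e]; exact hqC n j)
    refine ⟨h, κ, h1, ?_, ?_⟩
    · rw [← h2]
      congr 1
      funext n
      rw [← e]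
    · have h4 := lim_log hS _ h h3
      refine h4.congr fun n => ?_
      rw [← e]
  choose G κ hκ hqG hqlim using hqg
  -- the coefficients
  set r : ℕ → (σ → ℕ) → ℕ := fun n I => spart S (f n I) with hr
  have hrpos : ∀ n I, 0 < r n I := fun n I => spart_pos hS _
  choose a ha using fun n I => spart_dvd hS (f n I)
  have hasmall : ∀ I, gm (fun n => (a n I : ℚ)) ∈ KK L hL := by
    intro I
    apply small_mem hL
    intro η hη
    have h1 : ∀ᶠ n : ℕ in (UU : Filter ℕ), 1 / η ≤ n := by
      apply ev_of_atTop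
      exact tendsto_natCast_atTop_atTop.eventually_ge_atTop (1 / η)
    filter_upwards [h1] with n hn
    have h2 := hf n I
    have h3 : (0 : ℝ) < spart S (f n I) := by exact_mod_cast spart_pos hS _
    have h4 : |(f n I : ℝ)| = spart S (f n I) * |(a n I : ℝ)| := by
      conv_lhs => rw [ha n I]
      push_cast
      rw [abs_mul, abs_of_pos h3]
    rw [h4, mul_comm] at h2
    have h5 := le_of_mul_le_mul_right h2 h3
    refine h5.trans (Real.exp_le_exp.2 ?_)
    rw [div_le_iff₀ (by positivity)]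
    have h6 : (1 : ℝ) ≤ η * n := by
      rw [div_le_iff₀ hη] at hn
      linarith
    have h7 : (0 : ℝ) ≤ mm n := Nat.cast_nonneg _
    have h8 : (mm n : ℝ) * 1 ≤ mm n * (η * (n + 1)) := by
      apply mul_le_mul_of_nonneg_left _ h7
      nlinarith
    calc (mm n : ℝ) = mm n * 1 := by ring
      _ ≤ mm n * (η * (n + 1)) := h8
      _ = η * L n * (n + 1) := by rw [hLdef]; ring
  have hrg : ∀ I : σ → ℕ, ∃ (h : Fin S.card → ℝ) (κ : KK L hL), κ ≠ 0 ∧
      gm (fun n => (r n I : ℚ)) = (κ : GG) * ch B hL h ∧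
      Tendsto (fun n => Real.log (r n I) / L n) (UU : Filter ℕ) (𝓝 (-lv B none h)) := by
    intro I
    have e : ∀ n, r n I = ∏ i, B.P i ^ ((f n I).natAbs.factorization (B.P i)) := fun n =>
      spart_eq hS _
    obtain ⟨h, κ, h1, h2, h3⟩ := unit_germ (B := B) hL
      (fun n i => (f n I).natAbs.factorization (B.P i)) C (Eventually.of_forall fun n => by
        rw [← log_prod_bas hS, ← e]; exact hfC n I)
    refine ⟨h, κ, h1, ?_, ?_⟩
    · rw [← h2]
      congr 1
      funext n
      rw [← e]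
    · have h4 := lim_log hS _ h h3
      refine h4.congr fun n => ?_
      rw [← e]
  choose hh κ' hκ' hrG hrlim using hrg
  -- the number field
  set F : IntermediateField ℚ ℝ := IntermediateField.adjoin ℚ (Set.range θ) with hF
  have hfin : FiniteDimensional ℚ F := by
    apply IntermediateField.finiteDimensional_adjoin
    rintro _ ⟨l, rfl⟩
    exact (halg l).isIntegral
  have hθF : ∀ l, θ l ∈ F := fun l => IntermediateField.subset_adjoin ℚ _ ⟨l, rfl⟩
  set g : σ → Fin S.card → ℝ := fun s => G (pl s) with hg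
  set y : σ → GG := fun s => gm (fun n => (⌊θ s * q n (pl s)⌋ : ℚ) / q n (pl s)) with hy
  have hpos : ∀ j, δ ≤ -lv B none (G j) := by
    intro j
    refine ge_of_tendsto (hqlim j) ?_
    filter_upwards [L_pos hL] with n hn
    rw [le_div_iff₀ hn]
    exact hqδ n j
  have hne : ∀ i j, i ≠ j → lv B none (G i) ≠ lv B none (G j) := by
    intro i j hij h0
    have h1 := ((hqlim i).sub (hqlim j)).abs
    have h2 : δ ≤ |(-lv B none (G i)) - (-lv B none (G j))| := by
      refine ge_of_tendsto h1 ?_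
      filter_upwards [L_pos hL] with n hn
      rw [← sub_div, abs_div, abs_of_pos hn, le_div_iff₀ hn]
      exact hqq n i j hij
    rw [h0, sub_self, abs_zero] at h2
    linarith
  have H : Fam B L F (fun s => (⟨θ s, hθF s⟩ : F)) g y := by
    have hq' : ∀ s, _ := fun s => quot (B := B) hL (G (pl s)) (κ (pl s)) (hκ _)
      (fun n => q n (pl s)) (fun n => hq0 n _) (hqG (pl s)) (θ s)
    refine ⟨fun v s => (hq' s).1 v, fun s => (hq' s).2.1, fun s => (hq' s).2.2, fun s => ?_,
      fun s => ?_⟩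
    · exact lt_of_lt_of_le hδ (hpos _)
    · have hpl : ∀ t : {t : σ // lv B none (g t) = lv B none (g s)}, pl t.1 = pl s := by
        intro t
        by_contra hn
        exact hne _ _ hn t.2
      have h1 := (hind (pl s)).comp
        (Option.map (fun t : {t : σ // lv B none (g t) = lv B none (g s)} =>
          (⟨t.1, hpl t⟩ : {t : σ // pl t = pl s}))) (Option.map_injective (by
            intro a b hab
            exact Subtype.ext (congrArg (fun z : {t : σ // pl t = pl s} => z.1) hab)))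
      convert h1 using 1
      funext o
      cases o <;> rfl
  -- exponents
  set box : Finset (σ → ℕ) := Finset.Iic (fun _ : σ => d) with hbox
  set w : (σ → ℕ) → Fin S.card → ℝ := fun I => hh I + ∑ s, (I s : ℝ) • g s with hw
  have hsh : ∀ I, sh g ((I, w I) : Om σ S.card) = hh I := by
    intro I
    unfold sh
    rw [hw]
    simp only []
    abel
  set Ω : Finset (Om σ S.card) := box.biUnion fun I => (Finset.Iic I).image fun K => (K, w I) with hΩ
  have hΩd : Dn Ω := by
    intro ω hω K hK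
    rw [hΩ, Finset.mem_biUnion] at hω ⊢
    obtain ⟨I, hI, hω⟩ := hω
    obtain ⟨K', hK', rfl⟩ := Finset.mem_image.1 hω
    exact ⟨I, hI, Finset.mem_image.2 ⟨K, Finset.mem_Iic.2 (hK.trans (Finset.mem_Iic.1 hK')), rfl⟩⟩
  have hΩI : ∀ I ∈ box, (I, w I) ∈ Ω := by
    intro I hI
    rw [hΩ, Finset.mem_biUnion]
    exact ⟨I, hI, Finset.mem_image.2 ⟨I, Finset.mem_Iic.2 le_rfl, rfl⟩⟩
  set coef : (σ → ℕ) → KK L hL := fun I => ⟨_, hasmall I⟩ * κ' I * ∏ s, κ (pl s) ^ (I s) with hcoef
  set c : Om σ S.card → KK L hL := fun ω => if ω.1 ∈ box ∧ ω.2 = w ω.1 then coef ω.1 else 0 with hc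
  have hcΩ : ∀ ω ∉ Ω, c ω = 0 := by
    intro ω hω
    rw [hc]
    simp only []
    rw [if_neg]
    rintro ⟨h1, h2⟩
    apply hω
    have := hΩI _ h1
    rw [← h2] at this
    exact this
  have hterm : ∀ I, (coef I : GG) * xx hL y B ((I, w I) : Om σ S.card)
      = gm (fun n => ((f n I * ∏ s, ⌊θ s * q n (pl s)⌋ ^ (I s) : ℤ) : ℚ)) := by
    intro I
    have hu : ∀ s, (κ (pl s) : GG) * ch B hL (g s) * y s = gm (fun n => (⌊θ s * q n (pl s)⌋ : ℚ)) := by
      intro s
      rw [hg, ← hqG, hy, gm_mul, gm_eq]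
      refine Eventually.of_forall fun n => ?_
      have : (q n (pl s) : ℚ) ≠ 0 := by exact_mod_cast hq0 n _
      field_simp
    have h1 : (coef I : GG) * xx hL y B ((I, w I) : Om σ S.card)
        = gm (fun n => (a n I : ℚ)) * ((κ' I : GG) * ch B hL (hh I))
          * ∏ s, ((κ (pl s) : GG) * ch B hL (g s) * y s) ^ (I s) := by
      unfold xx
      rw [hcoef, hw]
      simp only []
      rw [ch_add, ch_fsum]
      simp only [ch_nsmul, mul_pow, Finset.prod_mul_distrib]
      push_cast
      ring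
    rw [h1, ← hrG]
    simp only [hu, gm_pow]
    rw [gm_mul, gm_prod, gm_mul]
    congr 1
    funext n
    conv_rhs => rw [ha n I]
    push_cast
    ring
  set Pn : ℕ → ℤ := fun n => ∑ I ∈ box, f n I * ∏ s, ⌊θ s * q n (pl s)⌋ ^ (I s) with hPn
  have hP : ∑ ω ∈ Ω, (c ω : GG) * xx hL y B ω = gm (fun n => (Pn n : ℚ)) := by
    have h1 : ∑ ω ∈ Ω, (c ω : GG) * xx hL y B ω
        = ∑ ω ∈ box.image (fun I => (I, w I)), (c ω : GG) * xx hL y B ω := by
      symm
      apply Finset.sum_subset
      · intro ω hω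
        obtain ⟨I, hI, rfl⟩ := Finset.mem_image.1 hω
        exact hΩI I hI
      · intro ω _ hn
        have : c ω = 0 := by
          rw [hc]
          simp only []
          rw [if_neg]
          rintro ⟨h1, h2⟩
          apply hn
          exact Finset.mem_image.2 ⟨ω.1, h1, Prod.ext rfl h2.symm⟩
        rw [this]
        simp
    rw [h1, Finset.sum_image (by
      intro a _ b _ hab
      exact (Prod.mk.inj hab).1)]
    have h2 : ∀ I ∈ box, (c ((I, w I) : Om σ S.card) : GG) * xx hL y B ((I, w I) : Om σ S.card)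
        = gm (fun n => ((f n I * ∏ s, ⌊θ s * q n (pl s)⌋ ^ (I s) : ℤ) : ℚ)) := by
      intro I hI
      rw [← hterm I]
      congr 2
      rw [hc]
      simp only []
      rw [if_pos ⟨hI, trivial⟩]
    rw [Finset.sum_congr rfl h2, gm_sum]
    congr 1
    funext n
    rw [hPn]
    push_cast
    rfl
  -- the index is constant
  obtain ⟨K, hK, hKev⟩ : ∃ K ∈ box, ∀ᶠ n in (UU : Filter ℕ), I0 n = K := by
    have h1 : ∀ᶠ n in (UU : Filter ℕ), ∃ K ∈ (box : Set (σ → ℕ)), I0 n = K :=
      Eventually.of_forall fun n => ⟨I0 n, hI0 n, rfl⟩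
    have h2 := (Ultrafilter.eventually_exists_mem_iff (f := UU) box.finite_toSet).1 h1
    obtain ⟨K, hK, h3⟩ := h2
    exact ⟨K, hK, h3⟩
  have hcK : c (K, w K) ≠ 0 := by
    have h1 : c (K, w K) = coef K := by
      rw [hc]
      simp only []
      rw [if_pos ⟨hK, trivial⟩]
    rw [h1, hcoef]
    simp only []
    refine mul_ne_zero (mul_ne_zero ?_ (hκ' K)) (Finset.prod_ne_zero_iff.2 fun s _ =>
      pow_ne_zero _ (hκ _))
    intro h0
    have h2 : gm (fun n => (a n K : ℚ)) = 0 := congrArg Subtype.val h0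
    have h3 : gm (fun n => (a n K : ℚ)) ≠ 0 := by
      rw [gm_ne_zero]
      filter_upwards [hKev] with n hn h4
      have h5 := hfI0 n
      rw [hn] at h5
      apply h5
      rw [ha n K]
      have : a n K = 0 := by exact_mod_cast h4
      rw [this, mul_zero]
    exact h3 h2
  -- the value does not vanish
  have hPne : ∀ᶠ n in (UU : Filter ℕ), Pn n ≠ 0 := by
    have h1 : gm (fun n => (Pn n : ℚ)) ≠ 0 := by
      intro h0
      rw [← hP] at h0
      exact hcK (indep hL H _ Ω rfl hΩd c hcΩ h0 _)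
    rw [gm_ne_zero] at h1
    filter_upwards [h1] with n hn h0
    apply hn
    rw [h0]; simp
  -- the valuations
  set K0 : ℝ := ε + |C| with hK0
  have hK0pos : 0 ≤ K0 := by positivity
  set ee : ℕ → Fin S.card → ℝ := fun n i =>
    ((Pn n).natAbs.factorization (B.P i) : ℝ) * Real.log (B.P i) / L n with hee
  have hee0 : ∀ᶠ n in (UU : Filter ℕ), ∀ i, 0 ≤ ee n i := by
    filter_upwards [L_pos hL] with n hn i
    have := B.log_pos i
    rw [hee]
    positivity
  have hlim : ∀ i, ∃ x, Tendsto (fun n => min (ee n i) K0) (UU : Filter ℕ) (𝓝 x) := by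
    intro i
    apply exists_lim _ K0
    filter_upwards [hee0] with n hn
    exact ⟨le_min (hn i) hK0pos, min_le_right _ _⟩
  choose e he using hlim
  have hPv : ∀ v, ∑ ω ∈ Ω, (c ω : GG) * xx hL y B ω ∈ Sv B L (some v) (e v) := by
    intro v
    rw [hP]
    apply dvd_germ hL
    intro η hη
    filter_upwards [(he v).eventually (lt_mem_nhds (show e v - η < e v by linarith)), L_pos hL]
      with n h1 h2
    refine ⟨(Pn n).natAbs.factorization (B.P v), ?_, ?_⟩
    · have h3 : (B.P v) ^ ((Pn n).natAbs.factorization (B.P v)) ∣ (Pn n).natAbs :=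
        Nat.ordProj_dvd _ _
      have h4 := Int.natCast_dvd.2 h3
      push_cast at h4
      exact h4
    · have h3 : e v - η ≤ ee n v := h1.le.trans (min_le_left _ _)
      rw [hee] at h3
      simp only [] at h3
      rwa [le_div_iff₀ h2] at h3
  have hdiv := divis hL H Ω hΩd c e hPv (K, w K) (hΩI K hK) hcK
  rw [hsh] at hdiv
  -- comparison
  have hsum : Tendsto (fun n => ∑ i, min (ee n i) K0) (UU : Filter ℕ) (𝓝 (∑ i, e i)) :=
    tendsto_finsetSum Finset.univ (fun i _ => he i)
  have hge : ε + (-lv B none (hh K)) ≤ ∑ i, e i := by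
    refine le_of_tendsto_of_tendsto (tendsto_const_nhds.add (hrlim K)) hsum ?_
    filter_upwards [hKev, hPne, L_pos hL, hee0] with n h1 h2 h3 h4
    have h5 := hbad n h2
    rw [h1] at h5
    have h6 : ε * L n + Real.log (r n K) ≤ Real.log (spart S (Pn n)) := by
      have h7 : (0 : ℝ) < spart S (f n K) := by exact_mod_cast spart_pos hS _
      have h8 := Real.log_le_log (by positivity) h5
      rw [Real.log_mul (Real.exp_pos _).ne' h7.ne', Real.log_exp] at h8
      exact h8
    have h7 : Real.log (spart S (Pn n)) = (∑ i, ee n i) * L n := by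
      rw [spart_eq hS, log_prod_bas hS, Finset.sum_mul]
      refine Finset.sum_congr rfl fun i _ => ?_
      rw [hee]
      simp only []
      field_simp
      rfl
    rw [h7] at h6
    have h8 : ε + Real.log (r n K) / L n ≤ ∑ i, ee n i := by
      rw [← sub_nonneg] at h6 ⊢
      have h9 : ∑ i, ee n i - (ε + Real.log (r n K) / L n)
          = ((∑ i, ee n i) * L n - (ε * L n + Real.log (r n K))) / L n := by
        field_simp
      rw [h9]
      exact div_nonneg h6 h3.le
    by_cases hbig : ∃ i, K0 ≤ ee n i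
    · obtain ⟨i, hi⟩ := hbig
      have h9 : K0 ≤ ∑ i, min (ee n i) K0 :=
        (min_eq_right hi).ge.trans (Finset.single_le_sum (f := fun i => min (ee n i) K0)
          (fun j _ => le_min (h4 j) hK0pos) (Finset.mem_univ i))
      have h10 : Real.log (r n K) / L n ≤ |C| := by
        rw [div_le_iff₀ h3]
        exact (hfC n K).trans (mul_le_mul_of_nonneg_right (le_abs_self C) h3.le)
      rw [hK0] at h9
      linarith
    · push Not at hbig
      have h9 : ∀ i, min (ee n i) K0 = ee n i := fun i => min_eq_left (hbig i).le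
      simp only [h9]
      exact h8
  linarith

end Pool.Agent.Q4.Blk
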