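import Mathlib
import Pool.Agent.Q4.Blk.Main

set_option autoImplicit false
set_option linter.unusedSectionVars false

/-!
# The two theorems
-/

namespace Pool.Agent.Q4.Blk

open MvPolynomial

lemma eval_box {σ : Type} [Fintype σ] [DecidableEq σ] (F : MvPolynomial σ ℤ) (d : ℕ)
    (hd : F.totalDegree ≤ d) (X : σ → ℤ) :
    eval X F = ∑ I ∈ Finset.Iic (fun _ : σ => d),
      F.coeff (Finsupp.equivFunOnFinite.symm I) * ∏ s, X s ^ I s := by
  classical
  have h1 : ∑ I ∈ Finset.Iic (fun _ : σ => d),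
      F.coeff (Finsupp.equivFunOnFinite.symm I) * ∏ s, X s ^ I s
      = ∑ D ∈ (Finset.Iic (fun _ : σ => d)).map Finsupp.equivFunOnFinite.symm.toEmbedding,
        F.coeff D * ∏ s, X s ^ D s := by
    rw [Finset.sum_map]
    rfl
  rw [h1, eval_eq']
  apply Finset.sum_subset
  · intro D hD
    rw [Finset.mem_map]
    refine ⟨D, ?_, ?_⟩
    · rw [Finset.mem_Iic, Pi.le_def]
      intro s
      have h2 := le_totalDegree hD
      have h3 : D s ≤ D.sum fun _ e => e := by
        by_cases hs : D s = 0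
        · rw [hs]; exact Nat.zero_le _
        · exact Finset.single_le_sum (f := fun s => D s) (fun _ _ => Nat.zero_le _)
            (Finsupp.mem_support_iff.2 hs)
      exact h3.trans (h2.trans hd)
    · ext s; rfl
  · intro D _ hD
    rw [notMem_support_iff.1 hD, zero_mul]

/-- exponents of monomials -/
lemma mem_box {σ : Type} [Fintype σ] [DecidableEq σ] (F : MvPolynomial σ ℤ) (d : ℕ)
    (hd : F.totalDegree ≤ d) {D : σ →₀ ℕ} (hD : D ∈ F.support) :
    (D : σ → ℕ) ∈ Finset.Iic (fun _ : σ => d) := by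
  rw [Finset.mem_Iic, Pi.le_def]
  intro s
  have h2 := le_totalDegree hD
  have h3 : D s ≤ D.sum fun _ e => e := by
    by_cases hs : D s = 0
    · rw [hs]; exact Nat.zero_le _
    · exact Finset.single_le_sum (f := fun s => D s) (fun _ _ => Nat.zero_le _)
        (Finsupp.mem_support_iff.2 hs)
  exact h3.trans (h2.trans hd)

theorem sparts (S : Finset ℕ) (hS : ∀ p ∈ S, p.Prime) (J n : ℕ) (θ : Fin J → Fin n → ℝ)
    (halg : ∀ j k, IsAlgebraic ℚ (θ j k))
    (hind : ∀ j, LinearIndependent ℚ (fun o : Option (Fin n) => (o.elim 1 (θ j) : ℝ)))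
    (d : ℕ) (δ C ε : ℝ) (hδ : 0 < δ) (hε : 0 < ε) :
    ∃ η : ℝ, 0 < η ∧ ∃ M : ℕ, ∀ m : ℕ, M ≤ m → ∀ q : Fin J → ℕ,
      (∀ j, q j ≠ 0) → (∀ j, (q j).primeFactors ⊆ S) →
      (∀ j, δ * m ≤ Real.log (q j)) → (∀ j, Real.log (q j) ≤ C * m) →
      (∀ i j, i ≠ j → δ * m ≤ |Real.log (q i) - Real.log (q j)|) →
      ∀ F : MvPolynomial (Fin J × Fin n) ℤ, F.totalDegree ≤ d →
        (∀ I ∈ F.support, |((F.coeff I : ℤ) : ℝ)| ≤ Real.exp (η * m) * spart S (F.coeff I) ∧
          (spart S (F.coeff I) : ℝ) ≤ Real.exp (C * m)) →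
        ∀ I ∈ F.support,
          eval (fun s => ⌊θ s.1 s.2 * q s.1⌋) F ≠ 0 ∧
          (spart S (eval (fun s => ⌊θ s.1 s.2 * q s.1⌋) F) : ℝ)
            ≤ Real.exp (ε * m) * spart S (F.coeff I) := by
  classical
  by_contra hcon
  push Not at hcon
  choose! mm hmm q hq0 hqS hqδ hqC hqq F hdeg hco I0 hI0 hbad using fun n : ℕ =>
    hcon (1 / ((n : ℝ) + 1)) (by positivity) n
  have hCle : C ≤ max C 0 := le_max_left _ _
  have hC0 : 0 ≤ max C 0 := le_max_right _ _
  refine main_seq S hS (σ := Fin J × Fin n) (J := Fin J) Prod.fst (fun s => θ s.1 s.2)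
    (fun s => halg _ _) ?_ d (C := max C 0) hδ hε mm hmm q hq0 hqS ?_ hqδ hqq
    (fun n I => (F n).coeff (Finsupp.equivFunOnFinite.symm I)) ?_ ?_
    (fun n => (I0 n : Fin J × Fin _ → ℕ)) (fun n => mem_box (F n) d (hdeg n) (hI0 n)) ?_ ?_
  · intro j
    have h1 := (hind j).comp (Option.map (fun s : {s : Fin J × Fin n // s.1 = j} => s.1.2))
      (Option.map_injective (by
        rintro ⟨⟨a1, a2⟩, ha⟩ ⟨⟨b1, b2⟩, hb⟩ hab
        simp only [] at ha hb hab
        subst ha hb hab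
        rfl))
    convert h1 using 1
    funext o
    cases o with
    | none => rfl
    | some s =>
      obtain ⟨⟨a1, a2⟩, ha⟩ := s
      simp only [] at ha
      subst ha
      rfl
  · intro n j
    exact (hqC n j).trans (mul_le_mul_of_nonneg_right hCle (Nat.cast_nonneg _))
  · intro n I
    by_cases h : Finsupp.equivFunOnFinite.symm I ∈ (F n).support
    · have h1 := (hco n _ h).1
      have e : 1 / ((n : ℝ) + 1) * mm n = (mm n : ℝ) / (n + 1) := by ring
      rw [e] at h1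
      exact h1
    · rw [notMem_support_iff.1 h]
      simp only [Int.cast_zero, abs_zero]
      positivity
  · intro n I
    by_cases h : Finsupp.equivFunOnFinite.symm I ∈ (F n).support
    · have h1 := (hco n _ h).2
      have h2 : (0 : ℝ) < spart S ((F n).coeff (Finsupp.equivFunOnFinite.symm I)) := by
        exact_mod_cast spart_pos hS _
      have h3 := Real.log_le_log h2 h1
      rw [Real.log_exp] at h3
      exact h3.trans (mul_le_mul_of_nonneg_right hCle (Nat.cast_nonneg _))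
    · rw [notMem_support_iff.1 h]
      have : spart S 0 = 1 := by simp [spart]
      rw [this]
      simp only [Nat.cast_one, Real.log_one]
      positivity
  · intro n
    have e : Finsupp.equivFunOnFinite.symm (I0 n : Fin J × Fin _ → ℕ) = I0 n := by ext s; rfl
    rw [e]
    exact mem_support_iff.1 (hI0 n)
  · intro n hne
    have e : Finsupp.equivFunOnFinite.symm (I0 n : Fin J × Fin _ → ℕ) = I0 n := by ext s; rfl
    rw [e]
    have h1 := eval_box (F n) d (hdeg n) (fun s => ⌊θ s.1 s.2 * q n s.1⌋)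
    rw [← h1] at hne ⊢
    exact (hbad n hne).le

lemma le_spart {S : Finset ℕ} (hS : ∀ p ∈ S, p.Prime) {Q : ℕ} (hQ : Q.primeFactors ⊆ S)
    {x : ℤ} (hx : x ≠ 0) (h : (Q : ℤ) ∣ x) : Q ≤ spart S x := by
  have hx' : x.natAbs ≠ 0 := Int.natAbs_ne_zero.2 hx
  have hd : Q ∣ x.natAbs := Int.natCast_dvd.1 h
  have hQ0 : Q ≠ 0 := fun h0 => hx' (by rw [h0, zero_dvd_iff] at hd; exact hd)
  have h1 : Q = ∏ p ∈ S, p ^ (Q.factorization p) := by
    conv_lhs => rw [← Nat.prod_factorization_pow_eq_self hQ0]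
    exact Finsupp.prod_of_support_subset _ (by rwa [Nat.support_factorization]) _ (by simp)
  conv_lhs => rw [h1]
  unfold spart
  refine Finset.prod_le_prod' fun p hp => ?_
  exact Nat.pow_le_pow_right (hS p hp).pos ((Nat.factorization_le_iff_dvd hQ0 hx').2 hd p)

lemma spart_le {S : Finset ℕ} (hS : ∀ p ∈ S, p.Prime) {x : ℤ} (hx : x ≠ 0) :
    (spart S x : ℝ) ≤ |(x : ℝ)| := by
  have h1 := spart_dvd hS x
  have h2 : (spart S x : ℤ) ≤ |x| := Int.le_of_dvd (abs_pos.2 hx) ((dvd_abs _ _).2 h1)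
  exact_mod_cast h2

/-- the digits after the point -/
noncomputable def digit (b : ℕ) (x : ℝ) (i : ℕ) : ℤ := ⌊x * (b : ℝ) ^ i⌋ % b

/-- the block of the `l` digits at the places `t - l + 1, …, t`, read as an integer in base `b` -/
noncomputable def block (b : ℕ) (x : ℝ) (t l : ℕ) : ℤ :=
  ∑ i ∈ Finset.range l, digit b x (t - i) * (b : ℤ) ^ i

lemma floor_succ (b : ℕ) (hb : 2 ≤ b) (x : ℝ) (s : ℕ) :
    ⌊x * (b : ℝ) ^ (s + 1)⌋ = b * ⌊x * (b : ℝ) ^ s⌋ + digit b x (s + 1) := by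
  have h1 : ⌊x * (b : ℝ) ^ (s + 1)⌋ / (b : ℤ) = ⌊x * (b : ℝ) ^ s⌋ := by
    rw [← Int.floor_div_natCast]
    congr 1
    have : (b : ℝ) ≠ 0 := by positivity
    rw [pow_succ]
    field_simp
  have h2 := Int.emod_add_mul_ediv ⌊x * (b : ℝ) ^ (s + 1)⌋ b
  rw [h1] at h2
  unfold digit
  linarith

lemma floor_block (b : ℕ) (hb : 2 ≤ b) (x : ℝ) (t l : ℕ) (h : l ≤ t) :
    ⌊x * (b : ℝ) ^ t⌋ = block b x t l + (b : ℤ) ^ l * ⌊x * (b : ℝ) ^ (t - l)⌋ := by
  induction l with
  | zero => simp [block]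
  | succ l ih =>
    have h1 := ih (by omega)
    have h2 : t - l = (t - (l + 1)) + 1 := by omega
    have h3 := floor_succ b hb x (t - (l + 1))
    rw [← h2] at h3
    rw [h1, h3]
    unfold block
    rw [Finset.sum_range_succ, pow_succ]
    ring

theorem blocks (b : ℕ) (hb : 2 ≤ b) (J n : ℕ) (θ : Fin J → Fin n → ℝ)
    (halg : ∀ j k, IsAlgebraic ℚ (θ j k))
    (hind : ∀ j, LinearIndependent ℚ (fun o : Option (Fin n) => (o.elim 1 (θ j) : ℝ)))
    (d : ℕ) (δ C ε : ℝ) (hδ : 0 < δ) (hε : 0 < ε) :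
    ∃ η : ℝ, 0 < η ∧ ∃ M : ℕ, ∀ m : ℕ, M ≤ m → ∀ t : Fin J → ℕ,
      (∀ j, δ * m ≤ t j ∧ (t j : ℝ) ≤ C * m) →
      (∀ i j, i ≠ j → δ * m ≤ |(t i : ℝ) - t j|) →
      ∀ l : ℕ, (∀ j, l ≤ t j) → ∀ Q : ℕ, Q ∣ b ^ l → (b : ℝ) ^ (ε * (m : ℝ)) ≤ Q →
      ∀ F : MvPolynomial (Fin J × Fin n) ℤ, F ≠ 0 → F.totalDegree ≤ d →
        (∀ I, |((F.coeff I : ℤ) : ℝ)| ≤ (b : ℝ) ^ (η * (m : ℝ))) →
        ¬ (Q : ℤ) ∣ eval (fun s => block b (θ s.1 s.2) (t s.1) l) F := by
  classical
  have hb0 : (0 : ℝ) < b := by positivity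
  have hlb : 0 < Real.log b := Real.log_pos (by exact_mod_cast (by omega : 1 < b))
  have hS : ∀ p ∈ b.primeFactors, p.Prime := fun p hp => Nat.prime_of_mem_primeFactors hp
  obtain ⟨η, hη, M, h⟩ := sparts b.primeFactors hS J n θ halg hind d (δ * Real.log b)
    (max (C * Real.log b) 1) (ε / 3 * Real.log b) (by positivity) (by positivity)
  refine ⟨min (min (η / Real.log b) (1 / Real.log b)) (ε / 3), by positivity, max M 1, ?_⟩
  intro m hm t ht htt l hl Q hQ hQb F hF hdeg hco hdvd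
  set η' := min (min (η / Real.log b) (1 / Real.log b)) (ε / 3) with hη'
  have hm0 : (0 : ℝ) < m := by
    have : 1 ≤ m := (le_max_right _ _).trans hm
    exact_mod_cast this
  have hη1 : η' * Real.log b ≤ η := by
    have : η' ≤ η / Real.log b := (min_le_left _ _).trans (min_le_left _ _)
    rwa [le_div_iff₀ hlb] at this
  have hη2 : η' * Real.log b ≤ 1 := by
    have : η' ≤ 1 / Real.log b := (min_le_left _ _).trans (min_le_right _ _)
    rwa [le_div_iff₀ hlb] at this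
  have hη3 : η' ≤ ε / 3 := min_le_right _ _
  have hlogt : ∀ j, Real.log ((b ^ t j : ℕ) : ℝ) = t j * Real.log b := by
    intro j
    rw [Nat.cast_pow, Real.log_pow]
  have hco' : ∀ I, |((F.coeff I : ℤ) : ℝ)| ≤ Real.exp (η' * Real.log b * m) := by
    intro I
    refine (hco I).trans (le_of_eq ?_)
    rw [Real.rpow_def_of_pos hb0]
    congr 1
    ring
  have hspos : ∀ x : ℤ, (1 : ℝ) ≤ spart b.primeFactors x := fun x => by
    exact_mod_cast spart_pos hS x
  have key := h m ((le_max_left _ _).trans hm) (fun j => b ^ t j)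
    (fun j => pow_ne_zero _ (by omega)) (fun j => by
      rcases Nat.eq_zero_or_pos (t j) with h0 | h0
      · rw [h0]; simp
      · rw [Nat.primeFactors_pow _ h0.ne']) (fun j => by
      rw [hlogt]
      calc δ * Real.log b * m = δ * m * Real.log b := by ring
        _ ≤ t j * Real.log b := mul_le_mul_of_nonneg_right (ht j).1 hlb.le) (fun j => by
      rw [hlogt]
      calc (t j : ℝ) * Real.log b ≤ C * m * Real.log b :=
            mul_le_mul_of_nonneg_right (ht j).2 hlb.le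
        _ = C * Real.log b * m := by ring
        _ ≤ max (C * Real.log b) 1 * m := mul_le_mul_of_nonneg_right (le_max_left _ _) hm0.le)
    (fun i j hij => by
      rw [hlogt, hlogt, ← sub_mul, abs_mul, abs_of_pos hlb]
      calc δ * Real.log b * m = δ * m * Real.log b := by ring
        _ ≤ _ := mul_le_mul_of_nonneg_right (htt i j hij) hlb.le)
    F hdeg (fun I hI => ⟨by
      calc |((F.coeff I : ℤ) : ℝ)| ≤ Real.exp (η' * Real.log b * m) := hco' I
        _ ≤ Real.exp (η * m) := Real.exp_le_exp.2 (mul_le_mul_of_nonneg_right hη1 hm0.le)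
        _ = Real.exp (η * m) * 1 := by ring
        _ ≤ _ := mul_le_mul_of_nonneg_left (hspos _) (Real.exp_pos _).le, by
      calc (spart b.primeFactors (F.coeff I) : ℝ) ≤ |((F.coeff I : ℤ) : ℝ)| :=
            spart_le hS (mem_support_iff.1 hI)
        _ ≤ Real.exp (η' * Real.log b * m) := hco' I
        _ ≤ Real.exp (max (C * Real.log b) 1 * m) := Real.exp_le_exp.2
            (mul_le_mul_of_nonneg_right (hη2.trans (le_max_right _ _)) hm0.le)⟩)
  obtain ⟨I, hI⟩ := ne_zero_iff.1 hF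
  obtain ⟨hne, hle⟩ := key I (mem_support_iff.2 hI)
  -- the congruence
  have hcong : ∀ s : Fin J × Fin n, block b (θ s.1 s.2) (t s.1) l ≡
      ⌊θ s.1 s.2 * ((b ^ t s.1 : ℕ) : ℝ)⌋ [ZMOD (Q : ℤ)] := by
    intro s
    have h1 := floor_block b hb (θ s.1 s.2) (t s.1) l (hl _)
    rw [Nat.cast_pow, h1]
    have h2 : (Q : ℤ) ∣ (b : ℤ) ^ l := by exact_mod_cast hQ
    have h3 : (b : ℤ) ^ l * ⌊θ s.1 s.2 * (b : ℝ) ^ (t s.1 - l)⌋ ≡ 0 [ZMOD (Q : ℤ)] :=
      Int.modEq_zero_iff_dvd.2 (h2.mul_right _)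
    have h4 := (Int.ModEq.refl (block b (θ s.1 s.2) (t s.1) l)).add h3
    rw [add_zero] at h4
    exact h4.symm
  have hev : eval (fun s => block b (θ s.1 s.2) (t s.1) l) F ≡
      eval (fun s => ⌊θ s.1 s.2 * ((b ^ t s.1 : ℕ) : ℝ)⌋) F [ZMOD (Q : ℤ)] := by
    rw [← ZMod.intCast_eq_intCast_iff] at *
    have e : ∀ X : Fin J × Fin n → ℤ, ((eval X F : ℤ) : ZMod Q)
        = eval₂ (Int.castRingHom (ZMod Q)) (fun s => (X s : ZMod Q)) F := by
      intro X
      have := eval₂_comp_left (Int.castRingHom (ZMod Q)) (RingHom.id ℤ) X F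
      rw [RingHom.comp_id] at this
      exact this
    rw [e, e]
    congr 1
    funext s
    have := hcong s
    rwa [← ZMod.intCast_eq_intCast_iff] at this
  have hQd : (Q : ℤ) ∣ eval (fun s => ⌊θ s.1 s.2 * ((b ^ t s.1 : ℕ) : ℝ)⌋) F :=
    Int.modEq_zero_iff_dvd.1 (hev.symm.trans (Int.modEq_zero_iff_dvd.2 hdvd))
  have hQS : Q.primeFactors ⊆ b.primeFactors := by
    have h1 : Q.primeFactors ⊆ (b ^ l).primeFactors :=
      Nat.primeFactors_mono hQ (pow_ne_zero _ (by omega))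
    rcases Nat.eq_zero_or_pos l with h0 | h0
    · rw [h0] at h1
      simp only [pow_zero, Nat.primeFactors_one] at h1
      exact h1.trans (Finset.empty_subset _)
    · rwa [Nat.primeFactors_pow _ h0.ne'] at h1
  have h1 := le_spart hS hQS hne hQd
  have h2 : (b : ℝ) ^ (ε * (m : ℝ)) ≤ Real.exp (ε / 3 * Real.log b * m) *
      Real.exp (η' * Real.log b * m) := by
    calc (b : ℝ) ^ (ε * (m : ℝ)) ≤ Q := hQb
      _ ≤ _ := by exact_mod_cast h1
      _ ≤ _ := hle
      _ ≤ _ := mul_le_mul_of_nonneg_left ((spart_le hS hI).trans (hco' I)) (Real.exp_pos _).le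
  rw [Real.rpow_def_of_pos hb0, ← Real.exp_add, Real.exp_le_exp] at h2
  have h3 : η' * Real.log b * m ≤ ε / 3 * Real.log b * m := by gcongr
  have h4 : 0 < ε * Real.log b * m := by positivity
  nlinarith

end Pool.Agent.Q4.Blk
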