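import Mathlib
import Pool.Agent.Q4.Blk.Thm

set_option autoImplicit false
set_option linter.unusedSectionVars false

/-!
# Small values of combinations of the forms
-/

namespace Pool.Agent.Q4.Blk

open Filter Topology Pool.Agent.TH932.Abs Pool.Agent.TH932.Germs Pool.Agent.TH932.Chi
open Pool.Agent.TH796.AL

variable {m : ℕ} {B : Base m} {L : ℕ → ℝ} (hL : Tendsto L atTop atTop)
variable {F : IntermediateField ℚ ℝ} [FiniteDimensional ℚ F] {σ : Type} [Fintype σ] [DecidableEq σ]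
variable {θ : σ → F} {g : σ → Fin m → ℝ} {y : σ → GG} (H : Fam B L F θ g y)

include H in
/-- **The size of a combination of the forms.** -/
theorem realp (Ω : Finset (Om σ m)) (hΩ : Dn Ω) (a : Om σ m → KA F hL)
    (e : ℝ) (hQ : ∑ ω ∈ Ω, (a ω : HR) * zz hL F θ y B ω ∈ SR L e)
    (i0 : Om σ m) (hi : i0 ∈ Ω) (hi0 : a i0 ≠ 0) :
    e ≤ lv B none (sh g i0) := by
  classical
  obtain ⟨C, hC⟩ := exists_C (B := B) Ω
  obtain ⟨Q, hQdef⟩ : ∃ Q : HR, Q = ∑ ω ∈ Ω, (a ω : HR) * zz hL F θ y B ω := ⟨_, rfl⟩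
  rw [← hQdef] at hQ
  set x : {ω // ω ∈ Ω} → GG := fun ω => xx hL y B ω.1 with hx
  have hQs : Q = ∑ ω : {ω // ω ∈ Ω}, (a ω.1 : HR) * zz hL F θ y B ω.1 :=
    hQdef.trans (Finset.sum_coe_sort Ω (fun ω => (a ω : HR) * zz hL F θ y B ω)).symm
  set i1 : {ω // ω ∈ Ω} := ⟨i0, hi⟩ with hi1
  have hai1 : a i1.1 ≠ 0 := hi0
  have hxi : ∀ a : {ω // ω ∈ Ω} → KK L hL, ∑ i, (a i : GG) * x i = 0 → ∀ i, a i = 0 := by
    intro a ha i
    have h1 := indep hL H _ Ω rfl hΩ (fun ω => if h : ω ∈ Ω then a ⟨ω, h⟩ else 0)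
      (fun ω hω => dif_neg hω) (by
        rw [← ha, ← Finset.sum_coe_sort Ω]
        refine Finset.sum_congr rfl fun ω _ => ?_
        rw [dif_pos ω.2]) i.1
    rw [dif_pos i.2] at h1
    exact h1
  have hxA := ind_KA hL F x hxi
  have hMsq : ∀ i k : {ω // ω ∈ Ω}, ∑ j : {ω // ω ∈ Ω}, Mt hL F θ i.1 j.1 * Mt hL F θ j.1 k.1
      = if i = k then 1 else 0 := by
    intro ω ω'
    rw [Finset.sum_coe_sort Ω (fun j => Mt hL F θ ω.1 j * Mt hL F θ j ω'.1),
      Mt_sq hL F θ hΩ ω.2]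
    simp only [Subtype.ext_iff]
  have hz : ∀ i : {ω // ω ∈ Ω}, zz hL F θ y B i.1
      = ∑ j : {ω // ω ∈ Ω}, (Mt hL F θ i.1 j.1 : HR) * rho (x j) := by
    intro ω
    rw [zz_eq hL F θ y hΩ ω.2]
    exact (Finset.sum_coe_sort Ω (fun j => (Mt hL F θ ω.1 j : HR) * rho (xx hL y B j))).symm
  -- independence of the forms
  have hzi : ∀ b : {ω // ω ∈ Ω} → KA F hL, ∑ i, (b i : HR) * zz hL F θ y B i.1 = 0 →
      ∀ i, b i = 0 := by
    intro b hb k
    have h1 : ∀ j : {ω // ω ∈ Ω}, ∑ i : {ω // ω ∈ Ω}, b i * Mt hL F θ i.1 j.1 = 0 := by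
      apply hxA
      rw [← hb]
      simp only [hz, Finset.mul_sum]
      rw [Finset.sum_comm]
      refine Finset.sum_congr rfl fun i _ => ?_
      rw [AddSubmonoidClass.coe_finsetSum, Finset.sum_mul]
      refine Finset.sum_congr rfl fun j _ => ?_
      rw [MulMemClass.coe_mul, mul_assoc]
    have h2 : b k = ∑ j : {ω // ω ∈ Ω}, (∑ i : {ω // ω ∈ Ω}, b i * Mt hL F θ i.1 j.1)
        * Mt hL F θ j.1 k.1 := by
      simp only [Finset.sum_mul]
      rw [Finset.sum_comm]
      have h3 : ∀ i : {ω // ω ∈ Ω}, ∑ j : {ω // ω ∈ Ω}, b i * Mt hL F θ i.1 j.1 * Mt hL F θ j.1 k.1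
          = b i * (if i = k then 1 else 0) := by
        intro i
        rw [← hMsq i k, Finset.mul_sum]
        exact Finset.sum_congr rfl fun j _ => mul_assoc _ _ _
      simp only [h3]
      simp
    rw [h2]
    refine Finset.sum_eq_zero fun j _ => ?_
    rw [h1 j, zero_mul]
  set z' : {ω // ω ∈ Ω} → HR := fun i => if i = i1 then Q else zz hL F θ y B i.1 with hz'
  have hz'1 : z' i1 = Q := by simp [hz']
  have hz'2 : ∀ i, i ≠ i1 → z' i = zz hL F θ y B i.1 := fun i h => by simp [hz', h]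
  have key := mova_thm m B L hL F inferInstance {ω // ω ∈ Ω} inferInstance x z'
    (fun v i => lv B (some v) (sh g i.1)) (fun i => if i = i1 then e else lv B none (sh g i.1))
    hxi ?_ ?_ (fun v i => H.x_fin hL v _) ?_ (fun i => H.x_int hL _) C
    (fun i => SR_anti hL (hC _ i.2) (H.x_bd hL _))
  · have e1 : ∑ i : {ω // ω ∈ Ω}, (if i = i1 then e else lv B none (sh g i.1))
        = ∑ i : {ω // ω ∈ Ω}, lv B none (sh g i.1) + (e - lv B none (sh g i1.1)) := by
      rw [sum_ne i1, if_pos rfl, sum_ne i1 (fun i : {ω // ω ∈ Ω} => lv B none (sh g i.1))]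
      have : ∀ i : {i : {ω // ω ∈ Ω} // i ≠ i1},
          (if i.1 = i1 then e else lv B none (sh g i.1.1)) = lv B none (sh g i.1.1) :=
        fun i => if_neg i.2
      simp only [this]
      ring
    rw [e1] at key
    have e2 : ∑ v, ∑ i : {ω // ω ∈ Ω}, lv B (some v) (sh g i.1)
        + ∑ i : {ω // ω ∈ Ω}, lv B none (sh g i.1) = 0 := by
      rw [Finset.sum_comm, ← Finset.sum_add_distrib]
      refine Finset.sum_eq_zero fun ω _ => ?_
      rw [sum_fin_lv]
      ring
    linarith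
  · -- independence of `z'`
    intro b hb
    have hQs' : Q = ∑ i : {i // i ≠ i1}, (a i.1.1 : HR) * zz hL F θ y B i.1.1
        + (a i1.1 : HR) * zz hL F θ y B i1.1 := by rw [hQs, sum_ne i1]
    rw [sum_ne i1, hz'1, hQs'] at hb
    have hb2 : ∑ i : {i // i ≠ i1}, (b i.1 : HR) * z' i.1
        = ∑ i : {i // i ≠ i1}, (b i.1 : HR) * zz hL F θ y B i.1.1 :=
      Finset.sum_congr rfl fun i _ => by rw [hz'2 i.1 i.2]
    rw [hb2] at hb
    have h1 := hzi (fun i => if i = i1 then b i1 * a i1.1 else b i + b i1 * a i.1) (by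
      rw [sum_ne i1, if_pos rfl, ← hb, mul_add, Finset.mul_sum, ← add_assoc,
        ← Finset.sum_add_distrib]
      congr 1
      · refine Finset.sum_congr rfl fun i _ => ?_
        rw [if_neg i.2, AddMemClass.coe_add, MulMemClass.coe_mul]
        ring
      · rw [MulMemClass.coe_mul]
        ring)
    have h2 : b i1 = 0 := by
      have := h1 i1
      rw [if_pos rfl] at this
      exact (mul_eq_zero.1 this).resolve_right hai1
    intro i
    by_cases hii : i = i1
    · rw [hii, h2]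
    · have := h1 i
      rw [if_neg hii, h2, zero_mul, add_zero] at this
      exact this
  · -- the span
    intro i
    by_cases hii : i = i1
    · refine ⟨fun j => ∑ k : {ω // ω ∈ Ω}, a k.1 * Mt hL F θ k.1 j.1, ?_⟩
      rw [hii, hz'1, hQs]
      simp only [hz, Finset.mul_sum]
      rw [Finset.sum_comm]
      refine Finset.sum_congr rfl fun j _ => ?_
      rw [AddSubmonoidClass.coe_finsetSum, Finset.sum_mul]
      refine Finset.sum_congr rfl fun k _ => ?_
      rw [MulMemClass.coe_mul, mul_assoc]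
    · exact ⟨fun j => Mt hL F θ i.1 j.1, by rw [hz'2 i hii]; exact hz i⟩
  · intro i
    by_cases hii : i = i1
    · rw [hii, hz'1, if_pos rfl]; exact hQ
    · rw [hz'2 i hii, if_neg hii]; exact H.z_inf hL _

end Pool.Agent.Q4.Blk
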