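import Mathlib
import Pool.Agent.Q4.Blk.Real

set_option autoImplicit false
set_option linter.unusedSectionVars false

/-!
# Values of polynomials at fractional parts
-/

namespace Pool.Agent.Q4.Blk

open Filter Topology Pool.Agent.TH932.Abs Pool.Agent.TH932.Germs Pool.Agent.TH932.Chi
open Pool.Agent.TH796.AL

lemma gr_fsum {ι : Type*} (s : Finset ι) (f : ι → ℕ → ℝ) :
    ∑ i ∈ s, gr (f i) = gr (fun n => ∑ i ∈ s, f i n) := by
  classical
  induction s using Finset.induction_on with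
  | empty => simp only [Finset.sum_empty]; exact gr_zero.symm
  | insert i s hi ih =>
    rw [Finset.sum_insert hi, ih, gr_add]
    congr 1
    funext n
    rw [Finset.sum_insert hi]

lemma gr_fprod {ι : Type*} (s : Finset ι) (f : ι → ℕ → ℝ) :
    ∏ i ∈ s, gr (f i) = gr (fun n => ∏ i ∈ s, f i n) := by
  classical
  induction s using Finset.induction_on with
  | empty => simp only [Finset.prod_empty]; exact gr_one.symm
  | insert i s hi ih =>
    rw [Finset.prod_insert hi, ih, gr_mul]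
    congr 1
    funext n
    rw [Finset.prod_insert hi]

lemma gr_fpow (a : ℕ → ℝ) (k : ℕ) : (gr a) ^ k = gr (fun n => a n ^ k) := rfl

theorem main_real (S : Finset ℕ) (hS : ∀ p ∈ S, p.Prime) {σ J : Type} [Fintype σ] [DecidableEq σ]
    (pl : σ → J) (θ : σ → ℝ) (halg : ∀ s, IsAlgebraic ℚ (θ s))
    (hind : ∀ j, LinearIndependent ℚ
      (fun o : Option {s // pl s = j} => (o.elim 1 (fun s => θ s) : ℝ)))
    {r : ℕ} (β : Fin r → ℝ) (hβa : ∀ k, IsAlgebraic ℚ (β k)) (hβ : LinearIndependent ℚ β)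
    (d : ℕ) {δ C ε : ℝ} (hδ : 0 < δ) (hε : 0 < ε) (mm : ℕ → ℕ) (hmm : ∀ n, n ≤ mm n)
    (q : ℕ → J → ℕ) (hq0 : ∀ n j, q n j ≠ 0) (hqS : ∀ n j, (q n j).primeFactors ⊆ S)
    (hqC : ∀ n j, Real.log (q n j) ≤ C * mm n) (hqδ : ∀ n j, δ * mm n ≤ Real.log (q n j))
    (hqq : ∀ n i j, i ≠ j → δ * mm n ≤ |Real.log (q n i) - Real.log (q n j)|)
    (f : ℕ → Fin r → (σ → ℕ) → ℤ) (ρ : ℕ → (σ → ℕ) → ℕ) (hρ0 : ∀ n I, ρ n I ≠ 0)
    (hρS : ∀ n I, (ρ n I).primeFactors ⊆ S) (hρC : ∀ n I, Real.log (ρ n I) ≤ C * mm n)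
    (hfρ : ∀ n k I, (ρ n I : ℤ) ∣ f n k I)
    (hf : ∀ n k I, |(f n k I : ℝ)| ≤ Real.exp ((mm n : ℝ) / (n + 1)) * ρ n I)
    (I0 : ℕ → (σ → ℕ)) (hI0 : ∀ n, I0 n ∈ Finset.Iic (fun _ : σ => d)) (k0 : ℕ → Fin r)
    (hfI0 : ∀ n, f n (k0 n) (I0 n) ≠ 0)
    (hbad : ∀ n, |∑ k, β k * ∑ I ∈ Finset.Iic (fun _ : σ => d),
      (f n k I : ℝ) * ∏ s, Int.fract (θ s * q n (pl s)) ^ (I s)|
      ≤ Real.exp (-(ε * mm n)) * ρ n (I0 n)) :
    False := by
  classical
  set B := bas S hS with hB
  set L : ℕ → ℝ := fun n => (mm n : ℝ) with hLdef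
  have hL : Tendsto L atTop atTop :=
    tendsto_natCast_atTop_atTop.comp (tendsto_atTop_mono hmm tendsto_id)
  -- units
  have unit : ∀ Q : ℕ → ℕ, (∀ n, Q n ≠ 0) → (∀ n, (Q n).primeFactors ⊆ S) →
      (∀ n, Real.log (Q n) ≤ C * mm n) →
      ∃ (h : Fin S.card → ℝ) (κ : KK L hL), κ ≠ 0 ∧
      gm (fun n => (Q n : ℚ)) = (κ : GG) * ch B hL h ∧
      Tendsto (fun n => Real.log (Q n) / L n) (UU : Filter ℕ) (𝓝 (-lv B none h)) := by
    intro Q hQ0 hQS hQC
    have e : ∀ n, Q n = ∏ i, B.P i ^ ((Q n).factorization (B.P i)) := fun n =>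
      eq_prod hS (hQ0 n) (hQS n)
    obtain ⟨h, κ, h1, h2, h3⟩ := unit_germ (B := B) hL
      (fun n i => (Q n).factorization (B.P i)) C (Eventually.of_forall fun n => by
        rw [← log_prod_bas hS, ← e]; exact hQC n)
    refine ⟨h, κ, h1, ?_, ?_⟩
    · rw [← h2]
      congr 1
      funext n
      rw [← e]
    · have h4 := lim_log hS _ h h3
      refine h4.congr fun n => ?_
      rw [← e]
  choose G κ hκ hqG hqlim using fun j => unit (fun n => q n j) (fun n => hq0 n j)
    (fun n => hqS n j) (fun n => hqC n j)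
  choose hh κ' hκ' hrG hrlim using fun I => unit (fun n => ρ n I) (fun n => hρ0 n I)
    (fun n => hρS n I) (fun n => hρC n I)
  -- the coefficients
  choose a ha using hfρ
  have hasmall : ∀ k I, gm (fun n => (a n k I : ℚ)) ∈ KK L hL := by
    intro k I
    apply small_mem hL
    intro η hη
    have h1 : ∀ᶠ n : ℕ in (UU : Filter ℕ), 1 / η ≤ n := by
      apply ev_of_atTop
      exact tendsto_natCast_atTop_atTop.eventually_ge_atTop (1 / η)
    filter_upwards [h1] with n hn
    have h2 := hf n k I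
    have h3 : (0 : ℝ) < ρ n I := by exact_mod_cast Nat.pos_of_ne_zero (hρ0 n I)
    have h4 : |(f n k I : ℝ)| = ρ n I * |(a n k I : ℝ)| := by
      conv_lhs => rw [ha n k I]
      push_cast
      rw [abs_mul, abs_of_pos h3]
    rw [h4, mul_comm] at h2
    have h5 := le_of_mul_le_mul_right h2 h3
    refine h5.trans (Real.exp_le_exp.2 ?_)
    rw [div_le_iff₀ (by positivity)]
    have h6 : (1 : ℝ) ≤ η * n := by
      rw [div_le_iff₀ hη] at hn
      linarith
    have h7 : (0 : ℝ) ≤ mm n := Nat.cast_nonneg _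
    have h8 : (mm n : ℝ) * 1 ≤ mm n * (η * (n + 1)) := by
      apply mul_le_mul_of_nonneg_left _ h7
      nlinarith
    calc (mm n : ℝ) = mm n * 1 := by ring
      _ ≤ mm n * (η * (n + 1)) := h8
      _ = η * L n * (n + 1) := by rw [hLdef]; ring
  -- the number field
  set F : IntermediateField ℚ ℝ :=
    IntermediateField.adjoin ℚ (Set.range θ ∪ Set.range β) with hF
  have hfin : FiniteDimensional ℚ F := by
    apply IntermediateField.finiteDimensional_adjoin
    rintro _ (⟨l, rfl⟩ | ⟨l, rfl⟩)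
    · exact (halg l).isIntegral
    · exact (hβa l).isIntegral
  have hθF : ∀ l, θ l ∈ F := fun l => IntermediateField.subset_adjoin ℚ _ (Or.inl ⟨l, rfl⟩)
  have hβF : ∀ l, β l ∈ F := fun l => IntermediateField.subset_adjoin ℚ _ (Or.inr ⟨l, rfl⟩)
  set g : σ → Fin S.card → ℝ := fun s => G (pl s) with hg
  set y : σ → GG := fun s => gm (fun n => (⌊θ s * q n (pl s)⌋ : ℚ) / q n (pl s)) with hy
  have hpos : ∀ j, δ ≤ -lv B none (G j) := by
    intro j
    refine ge_of_tendsto (hqlim j) ?_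
    filter_upwards [L_pos hL] with n hn
    rw [le_div_iff₀ hn]
    exact hqδ n j
  have hne : ∀ i j, i ≠ j → lv B none (G i) ≠ lv B none (G j) := by
    intro i j hij h0
    have h1 := ((hqlim i).sub (hqlim j)).abs
    have h2 : δ ≤ |(-lv B none (G i)) - (-lv B none (G j))| := by
      refine ge_of_tendsto h1 ?_
      filter_upwards [L_pos hL] with n hn
      rw [← sub_div, abs_div, abs_of_pos hn, le_div_iff₀ hn]
      exact hqq n i j hij
    rw [h0, sub_self, abs_zero] at h2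
    linarith
  have H : Fam B L F (fun s => (⟨θ s, hθF s⟩ : F)) g y := by
    have hq' : ∀ s, _ := fun s => quot (B := B) hL (G (pl s)) (κ (pl s)) (hκ _)
      (fun n => q n (pl s)) (fun n => hq0 n _) (hqG (pl s)) (θ s)
    refine ⟨fun v s => (hq' s).1 v, fun s => (hq' s).2.1, fun s => (hq' s).2.2, fun s => ?_,
      fun s => ?_⟩
    · exact lt_of_lt_of_le hδ (hpos _)
    · have hpl : ∀ t : {t : σ // lv B none (g t) = lv B none (g s)}, pl t.1 = pl s := by
        intro t
        by_contra hn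
        exact hne _ _ hn t.2
      have h1 := (hind (pl s)).comp
        (Option.map (fun t : {t : σ // lv B none (g t) = lv B none (g s)} =>
          (⟨t.1, hpl t⟩ : {t : σ // pl t = pl s}))) (Option.map_injective (by
            intro a b hab
            exact Subtype.ext (congrArg (fun z : {t : σ // pl t = pl s} => z.1) hab)))
      convert h1 using 1
      funext o
      cases o <;> rfl
  -- exponents
  set box : Finset (σ → ℕ) := Finset.Iic (fun _ : σ => d) with hbox
  set w : (σ → ℕ) → Fin S.card → ℝ := fun I => hh I + ∑ s, (I s : ℝ) • g s with hw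
  have hsh : ∀ I, sh g ((I, w I) : Om σ S.card) = hh I := by
    intro I
    unfold sh
    rw [hw]
    simp only []
    abel
  set Ω : Finset (Om σ S.card) := box.biUnion fun I => (Finset.Iic I).image fun K => (K, w I) with hΩ
  have hΩd : Dn Ω := by
    intro ω hω K hK
    rw [hΩ, Finset.mem_biUnion] at hω ⊢
    obtain ⟨I, hI, hω⟩ := hω
    obtain ⟨K', hK', rfl⟩ := Finset.mem_image.1 hω
    exact ⟨I, hI, Finset.mem_image.2 ⟨K, Finset.mem_Iic.2 (hK.trans (Finset.mem_Iic.1 hK')), rfl⟩⟩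
  have hΩI : ∀ I ∈ box, (I, w I) ∈ Ω := by
    intro I hI
    rw [hΩ, Finset.mem_biUnion]
    exact ⟨I, hI, Finset.mem_image.2 ⟨I, Finset.mem_Iic.2 le_rfl, rfl⟩⟩
  set bb : (σ → ℕ) → KA F hL := fun I => ∑ k, algebraMap F (KA F hL) ⟨β k, hβF k⟩ *
    Lin.inc hL F ⟨_, hasmall k I⟩ with hbb
  set coef : (σ → ℕ) → KA F hL := fun I => bb I * Lin.inc hL F (κ' I) *
    ∏ s, Lin.inc hL F (κ (pl s)) ^ (I s) with hcoef
  set c : Om σ S.card → KA F hL := fun ω => if ω.1 ∈ box ∧ ω.2 = w ω.1 then coef ω.1 else 0 with hc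
  have hbbv : ∀ I, (bb I : HR) = gr (fun n => ∑ k, β k * (a n k I : ℝ)) := by
    intro I
    rw [hbb]
    simp only []
    rw [AddSubmonoidClass.coe_finsetSum, ← gr_fsum]
    refine Finset.sum_congr rfl fun k _ => ?_
    rw [MulMemClass.coe_mul, Lin.inc_coe]
    have e1 : ((algebraMap F (KA F hL) ⟨β k, hβF k⟩ : KA F hL) : HR) = algebraMap ℝ HR (β k) := rfl
    rw [e1, rho_gm, cst_eq, gr_mul]
    congr 1
  have hterm : ∀ I, (coef I : HR) * zz hL F (fun s => (⟨θ s, hθF s⟩ : F)) y B ((I, w I) : Om σ S.card)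
      = gr (fun n => ∑ k, β k * ((f n k I : ℝ) * ∏ s, Int.fract (θ s * q n (pl s)) ^ (I s))) := by
    intro I
    have hu : ∀ s, rho ((κ (pl s) : GG) * ch B hL (g s)) * (algebraMap ℝ HR (θ s) - rho (y s))
        = gr (fun n => Int.fract (θ s * q n (pl s))) := by
      intro s
      rw [hg, ← hqG, hy, rho_gm, rho_gm, cst_eq, gr_sub, gr_mul, gr_eq]
      refine Eventually.of_forall fun n => ?_
      have : (q n (pl s) : ℝ) ≠ 0 := by exact_mod_cast hq0 n _
      unfold Int.fract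
      push_cast
      field_simp
    have h1 : (coef I : HR) * zz hL F (fun s => (⟨θ s, hθF s⟩ : F)) y B ((I, w I) : Om σ S.card)
        = (bb I : HR) * rho ((κ' I : GG) * ch B hL (hh I))
          * ∏ s, (rho ((κ (pl s) : GG) * ch B hL (g s)) * (algebraMap ℝ HR (θ s) - rho (y s))) ^ (I s) := by
      unfold zz
      rw [hcoef, hw]
      simp only []
      rw [ch_add, ch_fsum]
      simp only [ch_nsmul, mul_pow, Finset.prod_mul_distrib, map_mul, map_pow, map_prod,
        MulMemClass.coe_mul, Lin.inc_coe, SubmonoidClass.coe_finsetProd, SubmonoidClass.coe_pow]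
      ring
    rw [h1, ← hrG, hbbv]
    simp only [hu, gr_fpow]
    rw [gr_fprod, rho_gm, gr_mul, gr_mul]
    congr 1
    funext n
    rw [Finset.sum_mul, Finset.sum_mul]
    refine Finset.sum_congr rfl fun k _ => ?_
    conv_rhs => rw [ha n k I]
    push_cast
    ring
  set Pn : ℕ → ℝ := fun n => ∑ k, β k * ∑ I ∈ box,
      (f n k I : ℝ) * ∏ s, Int.fract (θ s * q n (pl s)) ^ (I s) with hPn
  have hP : ∑ ω ∈ Ω, (c ω : HR) * zz hL F (fun s => (⟨θ s, hθF s⟩ : F)) y B ω = gr Pn := by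
    have h1 : ∑ ω ∈ Ω, (c ω : HR) * zz hL F (fun s => (⟨θ s, hθF s⟩ : F)) y B ω
        = ∑ ω ∈ box.image (fun I => (I, w I)),
          (c ω : HR) * zz hL F (fun s => (⟨θ s, hθF s⟩ : F)) y B ω := by
      symm
      apply Finset.sum_subset
      · intro ω hω
        obtain ⟨I, hI, rfl⟩ := Finset.mem_image.1 hω
        exact hΩI I hI
      · intro ω _ hn
        have : c ω = 0 := by
          rw [hc]
          simp only []
          rw [if_neg]
          rintro ⟨h1, h2⟩
          apply hn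
          exact Finset.mem_image.2 ⟨ω.1, h1, Prod.ext rfl h2.symm⟩
        rw [this]
        simp
    rw [h1, Finset.sum_image (by
      intro a _ b _ hab
      exact (Prod.mk.inj hab).1)]
    have h2 : ∀ I ∈ box, (c ((I, w I) : Om σ S.card) : HR) *
        zz hL F (fun s => (⟨θ s, hθF s⟩ : F)) y B ((I, w I) : Om σ S.card)
        = gr (fun n => ∑ k, β k * ((f n k I : ℝ) * ∏ s, Int.fract (θ s * q n (pl s)) ^ (I s))) := by
      intro I hI
      rw [← hterm I]
      congr 2
      rw [hc]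
      simp only []
      rw [if_pos ⟨hI, trivial⟩]
    rw [Finset.sum_congr rfl h2, gr_fsum]
    congr 1
    funext n
    rw [hPn]
    simp only [Finset.mul_sum]
    rw [Finset.sum_comm]
  -- the indices are constant
  obtain ⟨K, hK, kk, hKev⟩ : ∃ K ∈ box, ∃ kk : Fin r, ∀ᶠ n in (UU : Filter ℕ), I0 n = K ∧ k0 n = kk := by
    have h1 : ∀ᶠ n in (UU : Filter ℕ), ∃ K ∈ ((box ×ˢ (Finset.univ : Finset (Fin r)) :
        Finset ((σ → ℕ) × Fin r)) : Set ((σ → ℕ) × Fin r)), I0 n = K.1 ∧ k0 n = K.2 :=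
      Eventually.of_forall fun n => ⟨(I0 n, k0 n), by
        rw [Finset.mem_coe, Finset.mem_product]
        exact ⟨hI0 n, Finset.mem_univ _⟩, rfl, rfl⟩
    have h2 := (Ultrafilter.eventually_exists_mem_iff (f := UU)
      (box ×ˢ (Finset.univ : Finset (Fin r))).finite_toSet).1 h1
    obtain ⟨K, hK, h3⟩ := h2
    rw [Finset.mem_coe, Finset.mem_product] at hK
    exact ⟨K.1, hK.1, K.2, h3⟩
  have hinc : ∀ a : KK L hL, a ≠ 0 → Lin.inc hL F a ≠ 0 := fun a ha h0 =>
    ha ((map_eq_zero (Lin.inc hL F)).1 h0)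
  have hcK : c (K, w K) ≠ 0 := by
    have h1 : c (K, w K) = coef K := by
      rw [hc]
      simp only []
      rw [if_pos ⟨hK, trivial⟩]
    rw [h1, hcoef]
    simp only []
    refine mul_ne_zero (mul_ne_zero ?_ (hinc _ (hκ' K))) (Finset.prod_ne_zero_iff.2 fun s _ =>
      pow_ne_zero _ (hinc _ (hκ _)))
    intro h0
    have h2 : ∑ k, algebraMap ℝ HR (β k) * rho (gm (fun n => (a n k K : ℚ))) = 0 := by
      have h3 : (bb K : HR) = 0 := by rw [h0]; rfl
      rw [← h3, hbb]
      simp only []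
      rw [AddSubmonoidClass.coe_finsetSum]
      refine Finset.sum_congr rfl fun k _ => ?_
      rw [MulMemClass.coe_mul, Lin.inc_coe]
      rfl
    have h3 := disj_thm (Fin r) inferInstance β hβ _ h2 kk
    have h4 : gm (fun n => (a n kk K : ℚ)) ≠ 0 := by
      rw [gm_ne_zero]
      filter_upwards [hKev] with n hn h4
      have h5 := hfI0 n
      rw [hn.1, hn.2] at h5
      apply h5
      rw [ha n kk K]
      have : a n kk K = 0 := by exact_mod_cast h4
      rw [this, mul_zero]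
    exact h4 h3
  -- the size
  have hsize : ∑ ω ∈ Ω, (c ω : HR) * zz hL F (fun s => (⟨θ s, hθF s⟩ : F)) y B ω
      ∈ SR L (ε + lv B none (hh K)) := by
    rw [hP, mem_SR]
    intro η hη
    filter_upwards [(hrlim K).eventually (gt_mem_nhds (show -lv B none (hh K)
      < -lv B none (hh K) + η by linarith)), hKev, L_pos hL] with n h1 h2 h3
    have h4 := hbad n
    rw [h2.1] at h4
    refine h4.trans ?_
    have h5 : (0 : ℝ) < ρ n K := by exact_mod_cast Nat.pos_of_ne_zero (hρ0 n K)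
    rw [div_lt_iff₀ h3] at h1
    have h6 : (ρ n K : ℝ) ≤ Real.exp ((-lv B none (hh K) + η) * L n) := by
      rw [← Real.exp_log h5]
      exact Real.exp_le_exp.2 h1.le
    calc Real.exp (-(ε * mm n)) * (ρ n K : ℝ)
        ≤ Real.exp (-(ε * mm n)) * Real.exp ((-lv B none (hh K) + η) * L n) :=
          mul_le_mul_of_nonneg_left h6 (Real.exp_pos _).le
      _ = Real.exp (-(ε + lv B none (hh K) - η) * L n) := by
          rw [← Real.exp_add]
          congr 1
          rw [hLdef]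
          ring
  have hfinal := realp hL H Ω hΩd c _ hsize (K, w K) (hΩI K hK) hcK
  rw [hsh] at hfinal
  linarith

end Pool.Agent.Q4.Blk
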