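import Mathlib
import Pool.Agent.Q4.Blk.RealSeq

set_option autoImplicit false
set_option linter.unusedSectionVars false

/-!
# Fractional parts keep away from algebraic hypersurfaces
-/

namespace Pool.Agent.Q4.Blk

open MvPolynomial

lemma eval_box_real {σ : Type} [Fintype σ] [DecidableEq σ] (F : MvPolynomial σ ℤ) (d : ℕ)
    (hd : F.totalDegree ≤ d) (X : σ → ℝ) :
    eval₂ (Int.castRingHom ℝ) X F = ∑ I ∈ Finset.Iic (fun _ : σ => d),
      ((F.coeff (Finsupp.equivFunOnFinite.symm I) : ℤ) : ℝ) * ∏ s, X s ^ I s := by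
  classical
  have h1 : ∑ I ∈ Finset.Iic (fun _ : σ => d),
      ((F.coeff (Finsupp.equivFunOnFinite.symm I) : ℤ) : ℝ) * ∏ s, X s ^ I s
      = ∑ D ∈ (Finset.Iic (fun _ : σ => d)).map Finsupp.equivFunOnFinite.symm.toEmbedding,
        ((F.coeff D : ℤ) : ℝ) * ∏ s, X s ^ D s := by
    rw [Finset.sum_map]
    rfl
  rw [h1, eval₂_eq']
  apply Finset.sum_subset
  · intro D hD
    rw [Finset.mem_map]
    exact ⟨D, mem_box F d hd hD, by ext s; rfl⟩
  · intro D _ hD
    rw [notMem_support_iff.1 hD]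
    simp

theorem reals (S : Finset ℕ) (hS : ∀ p ∈ S, p.Prime) (J n : ℕ) (θ : Fin J → Fin n → ℝ)
    (halg : ∀ j k, IsAlgebraic ℚ (θ j k))
    (hind : ∀ j, LinearIndependent ℚ (fun o : Option (Fin n) => (o.elim 1 (θ j) : ℝ)))
    (r : ℕ) (β : Fin r → ℝ) (hβa : ∀ k, IsAlgebraic ℚ (β k)) (hβ : LinearIndependent ℚ β)
    (d : ℕ) (δ C ε : ℝ) (hδ : 0 < δ) (hε : 0 < ε) :
    ∃ η : ℝ, 0 < η ∧ ∃ M : ℕ, ∀ m : ℕ, M ≤ m → ∀ q : Fin J → ℕ,
      (∀ j, q j ≠ 0) → (∀ j, (q j).primeFactors ⊆ S) →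
      (∀ j, δ * m ≤ Real.log (q j)) → (∀ j, Real.log (q j) ≤ C * m) →
      (∀ i j, i ≠ j → δ * m ≤ |Real.log (q i) - Real.log (q j)|) →
      ∀ G : Fin r → MvPolynomial (Fin J × Fin n) ℤ, (∀ k, (G k).totalDegree ≤ d) →
      ∀ ρ : (Fin J × Fin n →₀ ℕ) → ℕ, (∀ I, ρ I ≠ 0) → (∀ I, (ρ I).primeFactors ⊆ S) →
        (∀ I, Real.log (ρ I) ≤ C * m) → (∀ k I, (ρ I : ℤ) ∣ (G k).coeff I) →
        (∀ k I, |(((G k).coeff I : ℤ) : ℝ)| ≤ Real.exp (η * m) * ρ I) →
        ∀ k I, (G k).coeff I ≠ 0 →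
          Real.exp (-(ε * m)) * ρ I < |∑ k, β k *
            eval₂ (Int.castRingHom ℝ) (fun s => Int.fract (θ s.1 s.2 * q s.1)) (G k)| := by
  classical
  by_contra hcon
  push Not at hcon
  choose! mm hmm q hq0 hqS hqδ hqC hqq G hdeg ρ hρ0 hρS hρC hρd hco k0 I0 hI0 hbad using fun n : ℕ =>
    hcon (1 / ((n : ℝ) + 1)) (by positivity) n
  refine main_real S hS (σ := Fin J × Fin n) (J := Fin J) Prod.fst (fun s => θ s.1 s.2)
    (fun s => halg _ _) ?_ β hβa hβ d (C := C) hδ hε mm hmm q hq0 hqS hqC hqδ hqq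
    (fun n k I => (G n k).coeff (Finsupp.equivFunOnFinite.symm I))
    (fun n I => ρ n (Finsupp.equivFunOnFinite.symm I)) (fun n I => hρ0 n _) (fun n I => hρS n _)
    (fun n I => hρC n _) (fun n k I => hρd n _ _) ?_
    (fun n => (I0 n : Fin J × Fin _ → ℕ)) (fun n => mem_box (G n (k0 n)) d (hdeg n _)
      (mem_support_iff.2 (hI0 n))) k0 ?_ ?_
  · intro j
    have h1 := (hind j).comp (Option.map (fun s : {s : Fin J × Fin n // s.1 = j} => s.1.2))
      (Option.map_injective (by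
        rintro ⟨⟨a1, a2⟩, ha⟩ ⟨⟨b1, b2⟩, hb⟩ hab
        simp only [] at ha hb hab
        subst ha hb hab
        rfl))
    convert h1 using 1
    funext o
    cases o with
    | none => rfl
    | some s =>
      obtain ⟨⟨a1, a2⟩, ha⟩ := s
      simp only [] at ha
      subst ha
      rfl
  · intro n k I
    have h1 := hco n k (Finsupp.equivFunOnFinite.symm I)
    have e : 1 / ((n : ℝ) + 1) * mm n = (mm n : ℝ) / (n + 1) := by ring
    rw [e] at h1
    exact h1
  · intro n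
    have e : Finsupp.equivFunOnFinite.symm (I0 n : Fin J × Fin _ → ℕ) = I0 n := by ext s; rfl
    rw [e]
    exact hI0 n
  · intro n
    have e : Finsupp.equivFunOnFinite.symm (I0 n : Fin J × Fin _ → ℕ) = I0 n := by ext s; rfl
    rw [e]
    have h1 := hbad n
    have h2 : ∀ k, eval₂ (Int.castRingHom ℝ) (fun s => Int.fract (θ s.1 s.2 * q n s.1)) (G n k)
        = ∑ I ∈ Finset.Iic (fun _ : Fin J × Fin _ => d),
        (((G n k).coeff (Finsupp.equivFunOnFinite.symm I) : ℤ) : ℝ) *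
        ∏ s, Int.fract (θ s.1 s.2 * q n s.1) ^ I s := fun k =>
      eval_box_real (G n k) d (hdeg n k) _
    simp only [h2] at h1
    exact h1

theorem realblocks (b : ℕ) (hb : 2 ≤ b) (J n : ℕ) (θ : Fin J → Fin n → ℝ)
    (halg : ∀ j k, IsAlgebraic ℚ (θ j k))
    (hind : ∀ j, LinearIndependent ℚ (fun o : Option (Fin n) => (o.elim 1 (θ j) : ℝ)))
    (r : ℕ) (β : Fin r → ℝ) (hβa : ∀ k, IsAlgebraic ℚ (β k)) (hβ : LinearIndependent ℚ β)
    (d : ℕ) (δ C ε : ℝ) (hδ : 0 < δ) (hε : 0 < ε) :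
    ∃ η : ℝ, 0 < η ∧ ∃ M : ℕ, ∀ m : ℕ, M ≤ m → ∀ t : Fin J → ℕ,
      (∀ j, δ * m ≤ t j ∧ (t j : ℝ) ≤ C * m) →
      (∀ i j, i ≠ j → δ * m ≤ |(t i : ℝ) - t j|) →
      ∀ G : Fin r → MvPolynomial (Fin J × Fin n) ℤ, (∃ k, G k ≠ 0) →
        (∀ k, (G k).totalDegree ≤ d) →
        (∀ k I, |(((G k).coeff I : ℤ) : ℝ)| ≤ (b : ℝ) ^ (η * (m : ℝ))) →
        (b : ℝ) ^ (-(ε * (m : ℝ))) < |∑ k, β k * eval₂ (Int.castRingHom ℝ)
          (fun s => Int.fract (θ s.1 s.2 * (b : ℝ) ^ t s.1)) (G k)| := by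
  classical
  have hb0 : (0 : ℝ) < b := by positivity
  have hlb : 0 < Real.log b := Real.log_pos (by exact_mod_cast (by omega : 1 < b))
  have hS : ∀ p ∈ b.primeFactors, p.Prime := fun p hp => Nat.prime_of_mem_primeFactors hp
  obtain ⟨η, hη, M, h⟩ := reals b.primeFactors hS J n θ halg hind r β hβa hβ d (δ * Real.log b)
    (|C| * Real.log b) (ε * Real.log b) (by positivity) (by positivity)
  refine ⟨η / Real.log b, by positivity, M, ?_⟩
  intro m hm t ht htt G hG hdeg hco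
  have hlogt : ∀ j, Real.log ((b ^ t j : ℕ) : ℝ) = t j * Real.log b := by
    intro j
    rw [Nat.cast_pow, Real.log_pow]
  obtain ⟨k, hk⟩ := hG
  obtain ⟨I, hI⟩ := ne_zero_iff.1 hk
  have key := h m hm (fun j => b ^ t j)
    (fun j => pow_ne_zero _ (by omega)) (fun j => by
      rcases Nat.eq_zero_or_pos (t j) with h0 | h0
      · rw [h0]; simp
      · rw [Nat.primeFactors_pow _ h0.ne']) (fun j => by
      rw [hlogt]
      calc δ * Real.log b * m = δ * m * Real.log b := by ring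
        _ ≤ t j * Real.log b := mul_le_mul_of_nonneg_right (ht j).1 hlb.le) (fun j => by
      rw [hlogt]
      calc (t j : ℝ) * Real.log b ≤ C * m * Real.log b :=
            mul_le_mul_of_nonneg_right (ht j).2 hlb.le
        _ ≤ |C| * m * Real.log b := by
            gcongr
            exact le_abs_self C
        _ = |C| * Real.log b * m := by ring)
    (fun i j hij => by
      rw [hlogt, hlogt, ← sub_mul, abs_mul, abs_of_pos hlb]
      calc δ * Real.log b * m = δ * m * Real.log b := by ring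
        _ ≤ _ := mul_le_mul_of_nonneg_right (htt i j hij) hlb.le)
    G hdeg (fun _ => 1) (fun _ => one_ne_zero) (fun _ => by simp) (fun _ => by
      simp only [Nat.cast_one, Real.log_one]
      positivity) (fun _ _ => by simp) (fun k I => by
      have h1 := hco k I
      rw [Real.rpow_def_of_pos hb0] at h1
      have h2 : Real.log b * (η / Real.log b * m) = η * m := by field_simp
      rw [h2] at h1
      simpa using h1) k I hI
  have h3 : (b : ℝ) ^ (-(ε * (m : ℝ))) = Real.exp (-(ε * Real.log b * m)) := by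
    rw [Real.rpow_def_of_pos hb0]
    congr 1
    ring
  rw [h3]
  simpa using key

end Pool.Agent.Q4.Blk
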